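import Mathlib

/-!
Definitions for Medvedev degrees of subshifts on finitely generated groups.
-/

set_option autoImplicit false

namespace Pool.Agent.H49Z.Med

/-- The list of the first `m` values `y 0, …, y (m-1)` of a sequence. -/
def pre (y : ℕ → ℕ) (m : ℕ) : List ℕ := (List.range m).map y

/-- Medvedev reducibility `P ≤_M Q`: a Turing functional, given as usual by a computable
monotone map `f` on finite strings, sends every `y ∈ Q` to some `x ∈ P`
(that is, `x` is the union of the strings `f (y ↾ m)`). -/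
def MedLE (P Q : Set (ℕ → ℕ)) : Prop :=
  ∃ f : List ℕ → List ℕ, Computable f ∧ (∀ σ τ : List ℕ, σ <+: τ → f σ <+: f τ) ∧
    ∀ y ∈ Q, ∃ x ∈ P, ∀ n : ℕ, ∃ m : ℕ, pre x n <+: f (pre y m)

/-- `P` and `Q` have the same Medvedev degree. -/
def MedEquiv (P Q : Set (ℕ → ℕ)) : Prop := MedLE P Q ∧ MedLE Q P

/-- `P` is a `Π⁰₁` subset of Cantor space: the set of `0`-`1` sequences all of whose initial
segments pass a computable test. -/
def IsPi01 (P : Set (ℕ → ℕ)) : Prop :=
  ∃ c : List ℕ → Bool, Computable c ∧ P = {x | (∀ n, x n ≤ 1) ∧ ∀ m, c (pre x m) = true}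

/-- Words in the symmetric generating set `s₀^{±1}, …, s_{r-1}^{±1}`: the letter `(i, true)` is
`sᵢ` and `(i, false)` is `sᵢ⁻¹`. -/
abbrev Word (r : ℕ) : Type := List (Fin r × Bool)

/-- The group `⟨s₀, …, s_{r-1} | R⟩`. -/
abbrev Grp {r : ℕ} (R : Set (Word r)) : Type := PresentedGroup (FreeGroup.mk '' R)

/-- The element of `⟨s₀, …, s_{r-1} | R⟩` represented by a word. -/
def ev {r : ℕ} (R : Set (Word r)) (w : Word r) : Grp R :=
  PresentedGroup.mk (FreeGroup.mk '' R) (FreeGroup.mk w)

/-- The shift action `(g x)(h) = x(g⁻¹ h)`. -/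
def shift {G A : Type} [Group G] (g : G) (x : G → A) : G → A := fun h => x (g⁻¹ * h)

/-- A subshift: a nonempty closed shift-invariant set of configurations. -/
def IsSubshift {G : Type} [Group G] {k : ℕ} (X : Set (G → Fin k)) : Prop :=
  X.Nonempty ∧ IsClosed X ∧ ∀ g : G, ∀ x ∈ X, shift g x ∈ X

/-- A subshift of finite type: the configurations avoiding a finite set of finite patterns
(a pattern is a finite support `K ⊆ G` with a map from `K` to the alphabet). -/
def IsSFT {G : Type} [Group G] {k : ℕ} (X : Set (G → Fin k)) : Prop :=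
  ∃ F : Set ((K : Finset G) × (K → Fin k)), F.Finite ∧
    X = {x | ∀ p ∈ F, ∀ g : G, ¬ ∀ h : p.1, x (g * h) = p.2 h}

/-- `φ` restricts to a factor map from `X` onto `Y`: continuous, equivariant, surjective. -/
def IsFactorMap {G : Type} [Group G] {k l : ℕ} (X : Set (G → Fin k)) (Y : Set (G → Fin l))
    (φ : (G → Fin k) → (G → Fin l)) : Prop :=
  ContinuousOn φ X ∧ (∀ g : G, ∀ x ∈ X, φ (shift g x) = shift g (φ x)) ∧ φ '' X = Y

/-- A sofic subshift: the image of a subshift of finite type under a factor map. -/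
def IsSofic {G : Type} [Group G] {l : ℕ} (Y : Set (G → Fin l)) : Prop :=
  ∃ (k : ℕ) (X : Set (G → Fin k)) (φ : (G → Fin k) → (G → Fin l)), IsSFT X ∧ IsFactorMap X Y φ

/-- The mass problem of a set `X` of configurations: the sequences `n ↦ x(value of e n)`,
`x ∈ X`, where `e` is an enumeration of the words. Its Medvedev degree is `m(X)`. -/
def hat {r : ℕ} (R : Set (Word r)) (e : ℕ → Word r) {k : ℕ} (X : Set (Grp R → Fin k)) :
    Set (ℕ → ℕ) :=
  {y | ∃ x ∈ X, y = fun n => (x (ev R (e n))).val}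

end Pool.Agent.H49Z.Med
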