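import Pool.Agent.H49Z.Med.Hard

/-!
Elementary matrices, commutator words for monomials and conditional words.
-/

set_option autoImplicit false

namespace Pool.Agent.H49Z.Med

open Matrix Nat.Partrec.Code
open Nat.Partrec (Code)
open scoped commutatorElement

section Elem
variable {R : Type} [Ring R]

theorem ring_comm (A B : R) (hA : A * A = 0) (hB : B * B = 0) (hBA : B * A = 0) :
    (1 + A) * (1 + B) * (1 - A) * (1 - B) = 1 + A * B := by
  have h1 : (1 + B) * (1 - A) = 1 - A + B := by
    have : (1 + B) * (1 - A) = 1 - A + B - B * A := by noncomm_ring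
    rw [this, hBA, sub_zero]
  have h2 : (1 + A) * (1 - A + B) = 1 + B + A * B := by
    have : (1 + A) * (1 - A + B) = 1 + B + A * B - A * A := by noncomm_ring
    rw [this, hA, sub_zero]
  have h3 : (1 + B + A * B) * (1 - B) = 1 + A * B := by
    have : (1 + B + A * B) * (1 - B) = 1 + A * B - B * B - A * (B * B) := by noncomm_ring
    rw [this, hB, mul_zero, sub_zero, sub_zero]
  rw [mul_assoc (1 + A), h1, h2, h3]

theorem single_sq {j k : Fin 3} (h : j ≠ k) (x y : R) :
    (single j k x : Matrix (Fin 3) (Fin 3) R) * single j k y = 0 :=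
  single_mul_single_of_ne _ _ _ _ h.symm _

/-- The elementary matrix `1 + x E_{jk}` (the identity if `j = k`). -/
def el (j k : Fin 3) (x : R) : (Matrix (Fin 3) (Fin 3) R)ˣ :=
  if h : j = k then 1 else
    ⟨1 + single j k x, 1 - single j k x, by
      have : (1 + single j k x) * (1 - single j k x) =
        1 - (single j k x : Matrix (Fin 3) (Fin 3) R) * single j k x := by noncomm_ring
      rw [this, single_sq h, sub_zero], by
      have : (1 - single j k x) * (1 + single j k x) =
        1 - (single j k x : Matrix (Fin 3) (Fin 3) R) * single j k x := by noncomm_ring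
      rw [this, single_sq h, sub_zero]⟩

theorem el_val {j k : Fin 3} (h : j ≠ k) (x : R) :
    (el j k x : Matrix (Fin 3) (Fin 3) R) = 1 + single j k x := by simp [el, h]

theorem el_inv_val {j k : Fin 3} (h : j ≠ k) (x : R) :
    (((el j k x)⁻¹ : (Matrix (Fin 3) (Fin 3) R)ˣ) : Matrix (Fin 3) (Fin 3) R) =
      1 - single j k x := by
  simp only [el, dif_neg h]; rfl

theorem el_same (j : Fin 3) (x : R) : el j j x = 1 := by simp [el]

theorem el_zero (j k : Fin 3) : el j k (0 : R) = 1 := by
  by_cases h : j = k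
  · simp [el, h]
  · ext1; rw [el_val h]; simp

theorem el_comm (j l k : Fin 3) (hjl : j ≠ l) (hlk : l ≠ k) (hjk : j ≠ k) (x y : R) :
    ⁅el j l x, el l k y⁆ = el j k (x * y) := by
  ext1
  rw [commutatorElement_def]
  simp only [Units.val_mul, el_val hjl, el_val hlk, el_val hjk, el_inv_val hjl, el_inv_val hlk]
  rw [ring_comm _ _ (single_sq hjl _ _) (single_sq hlk _ _)
    (single_mul_single_of_ne _ _ _ _ hjk.symm _), single_mul_single_same]

theorem el_add (j k : Fin 3) (x y : R) : el j k x * el j k y = el j k (x + y) := by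
  by_cases h : j = k
  · simp [el, h]
  · ext1
    simp only [Units.val_mul, el_val h]
    have : (1 + single j k x) * (1 + single j k y) = 1 + (single j k x + single j k y) +
        (single j k x : Matrix (Fin 3) (Fin 3) R) * single j k y := by noncomm_ring
    rw [this, single_sq h, add_zero, single_add]

theorem el_pow (j k : Fin 3) (n : ℕ) : el j k (1 : R) ^ n = el j k (n : R) := by
  induction n with
  | zero => simp [el_zero]
  | succ n ih => rw [pow_succ, ih, el_add]; simp

end Elem

section Words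
variable {r : ℕ}

theorem ev_append (R : Set (Word r)) (u v : Word r) : ev R (u ++ v) = ev R u * ev R v := by
  simp [ev, ← FreeGroup.mul_mk]

theorem ev_nil (R : Set (Word r)) : ev R [] = 1 := by
  simp [ev, ← FreeGroup.one_eq_mk]

theorem ev_invRev (R : Set (Word r)) (u : Word r) : ev R (FreeGroup.invRev u) = (ev R u)⁻¹ := by
  simp [ev, ← FreeGroup.inv_mk]

theorem ev_rel {R : Set (Word r)} {w : Word r} (h : w ∈ R) : ev R w = 1 :=
  PresentedGroup.one_of_mem ⟨w, h, rfl⟩

theorem ev_surj (R : Set (Word r)) : Function.Surjective (ev R) := by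
  intro g
  obtain ⟨h, rfl⟩ := PresentedGroup.mk_surjective _ g
  obtain ⟨w, rfl⟩ := Quot.exists_rep h
  exact ⟨w, rfl⟩

theorem ev_of (R : Set (Word r)) (i : Fin r) : ev R [(i, true)] = PresentedGroup.of i := rfl

/-- The formal commutator of two words. -/
def cm (u v : Word r) : Word r := u ++ v ++ FreeGroup.invRev u ++ FreeGroup.invRev v

theorem mk_cm (u v : Word r) : FreeGroup.mk (cm u v) = ⁅FreeGroup.mk u, FreeGroup.mk v⁆ := by
  simp [cm, commutatorElement_def, ← FreeGroup.mul_mk, ← FreeGroup.inv_mk, mul_assoc]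

theorem primrec_invRev : Primrec (FreeGroup.invRev : Word r → Word r) :=
  Primrec.list_reverse.comp (Primrec.list_map Primrec.id
    ((Primrec.fst.comp Primrec.snd).pair (Primrec.not.comp (Primrec.snd.comp Primrec.snd))).to₂)

theorem primrec_cm : Primrec₂ (cm : Word r → Word r → Word r) :=
  (Primrec.list_append.comp (Primrec.list_append.comp (Primrec.list_append.comp Primrec.fst
    Primrec.snd) (primrec_invRev.comp Primrec.fst)) (primrec_invRev.comp Primrec.snd))

/-- Iterated commutators. -/
def cw {α : Type} (P Q : α → Word r) (b1 b2 : Word r) (L : List α) : Word r × Word r :=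
  L.foldr (fun a s => (cm (P a) s.2, cm (Q a) s.1)) (b1, b2)

theorem primrec_cw {α : Type} [Primcodable α] {P Q : α → Word r} (hP : Primrec P)
    (hQ : Primrec Q) (b1 b2 : Word r) : Primrec (cw P Q b1 b2) := by
  have h1 : Primrec fun z : List α × (α × (Word r × Word r)) => cm (P z.2.1) z.2.2.2 :=
    primrec_cm.comp (hP.comp (Primrec.fst.comp Primrec.snd))
      (Primrec.snd.comp (Primrec.snd.comp Primrec.snd))
  have h2 : Primrec fun z : List α × (α × (Word r × Word r)) => cm (Q z.2.1) z.2.2.1 :=
    primrec_cm.comp (hQ.comp (Primrec.fst.comp Primrec.snd))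
      (Primrec.fst.comp (Primrec.snd.comp Primrec.snd))
  exact Primrec.list_foldr (f := fun L : List α => L) (g := fun _ => (b1, b2))
    (h := fun _ (z : α × (Word r × Word r)) => (cm (P z.1) z.2.2, cm (Q z.1) z.2.1))
    Primrec.id (Primrec.const _) (h1.pair h2).to₂

/-- The third index. -/
def third (j k : Fin 3) : Fin 3 := -(j + k)

theorem third_ne : ∀ j k : Fin 3, j ≠ k → j ≠ third j k ∧ third j k ≠ k := by decide

/-- The word for the elementary matrix `e_{jk}` of a monomial. -/
def mono {α : Type} (atm : Fin 3 → Fin 3 → α → Word r) (base : Fin 3 → Fin 3 → Word r)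
    (j k : Fin 3) (L : List α) : Word r :=
  if j = k then [] else
    (cw (atm j (third j k)) (atm (third j k) j) (base j k) (base (third j k) k) L).1

theorem primrec_mono {α : Type} [Primcodable α] {atm : Fin 3 → Fin 3 → α → Word r}
    (h : ∀ j l, Primrec (atm j l)) (base : Fin 3 → Fin 3 → Word r) (j k : Fin 3) :
    Primrec (mono atm base j k) := by
  unfold mono
  by_cases hjk : j = k
  · simp only [if_pos hjk]; exact Primrec.const _
  · simp only [if_neg hjk]; exact Primrec.fst.comp (primrec_cw (h _ _) (h _ _) _ _)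

theorem mono_rel {α H M : Type} [Group H] [Monoid M] (K : Subgroup (FreeGroup (Fin r) × H))
    (E : Fin 3 → Fin 3 → M → H)
    (hE : ∀ j l k, j ≠ l → l ≠ k → j ≠ k → ∀ x y, ⁅E j l x, E l k y⁆ = E j k (x * y))
    (hE0 : ∀ j x, E j j x = 1) (atm : Fin 3 → Fin 3 → α → Word r)
    (base : Fin 3 → Fin 3 → Word r) (val : α → M) (L : List α)
    (hat : ∀ a ∈ L, ∀ j l, (FreeGroup.mk (atm j l a), E j l (val a)) ∈ K)
    (hbase : ∀ j k, (FreeGroup.mk (base j k), E j k 1) ∈ K) (j k : Fin 3) :
    (FreeGroup.mk (mono atm base j k L), E j k (L.map val).prod) ∈ K := by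
  unfold mono
  by_cases hjk : j = k
  · subst hjk
    simp only [if_true, hE0]
    exact K.one_mem
  · simp only [if_neg hjk]
    obtain ⟨h1, h2⟩ := third_ne j k hjk
    generalize third j k = l at h1 h2
    have comm : ∀ a b : FreeGroup (Fin r) × H, a ∈ K → b ∈ K → (⁅a.1, b.1⁆, ⁅a.2, b.2⁆) ∈ K :=
      fun a b ha hb => K.mul_mem (K.mul_mem (K.mul_mem ha hb) (K.inv_mem ha)) (K.inv_mem hb)
    suffices h : (FreeGroup.mk (cw (atm j l) (atm l j) (base j k) (base l k) L).1,
        E j k (L.map val).prod) ∈ K ∧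
        (FreeGroup.mk (cw (atm j l) (atm l j) (base j k) (base l k) L).2,
        E l k (L.map val).prod) ∈ K from h.1
    induction L with
    | nil => exact ⟨hbase j k, hbase l k⟩
    | cons a L ih =>
      obtain ⟨i1, i2⟩ := ih fun b hb => hat b (List.mem_cons_of_mem _ hb)
      constructor
      · have := comm _ _ (hat a List.mem_cons_self j l) i2
        simp only [hE j l k h1 h2 hjk, ← mk_cm] at this
        exact this
      · have := comm _ _ (hat a List.mem_cons_self l j) i1
        simp only [hE l j k h1.symm hjk h2, ← mk_cm] at this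
        exact this

theorem mono_hom {α H M : Type} [Group H] [Monoid M] (φ : FreeGroup (Fin r) →* H)
    (E : Fin 3 → Fin 3 → M → H)
    (hE : ∀ j l k, j ≠ l → l ≠ k → j ≠ k → ∀ x y, ⁅E j l x, E l k y⁆ = E j k (x * y))
    (hE0 : ∀ j x, E j j x = 1) (atm : Fin 3 → Fin 3 → α → Word r)
    (base : Fin 3 → Fin 3 → Word r) (val : α → M) (L : List α)
    (hat : ∀ a ∈ L, ∀ j l, φ (FreeGroup.mk (atm j l a)) = E j l (val a))
    (hbase : ∀ j k, φ (FreeGroup.mk (base j k)) = E j k 1) (j k : Fin 3) :
    φ (FreeGroup.mk (mono atm base j k L)) = E j k (L.map val).prod :=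
  mono_rel φ.graph E hE hE0 atm base val L hat hbase j k

end Words

theorem primrec_fin_param {ι α σ : Type} [Finite ι] [Primcodable ι] [Primcodable α]
    [Primcodable σ] (f : ι → α → σ) (h : ∀ i, Primrec (f i)) : Primrec₂ f := by
  obtain ⟨n, ⟨e⟩⟩ := Finite.exists_equiv_fin ι
  have h1 : Primrec₂ fun (i : Fin n) (a : α) => f (e.symm i) a :=
    Primrec.fin_curry₁.2 fun i => h _
  exact (h1.comp ((Primrec.dom_finite e).comp Primrec.fst) Primrec.snd).of_eq (by simp)

theorem primrec_replicate {α : Type} [Primcodable α] (b : α) :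
    Primrec fun n => List.replicate n b :=
  (Primrec.list_map Primrec.list_range (Primrec.const b).to₂).of_eq fun n => by simp

/-- Names of the generators: `none` is the stable letter, `some (j, k, x)` the elementary matrix
of the ring generator number `x`. -/
abbrev Gen : Type := Option (Fin 3 × Fin 3 × Fin 15)

/-- Number of generators. -/
abbrev rk : ℕ := Fintype.card Gen

/-- Numbering of the generators. -/
noncomputable def sg : Gen ≃ Fin rk := Fintype.equivFin Gen

/-- The one-letter word of a generator. -/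
noncomputable def lt (g : Gen) : Word rk := [(sg g, true)]

/-- The word for `e_{jk}` of a product of ring generators. -/
noncomputable def mono0 (j k : Fin 3) (L : List (Fin 15)) : Word rk :=
  mono (fun j l y => lt (some (j, l, y))) (fun j l => lt (some (j, l, 0))) j k L

/-- The monomial `x a bⁿ D cⁿ⁺¹`. -/
def condL (x : Fin 15) (n : ℕ) : List (Fin 15) :=
  x :: 1 :: (List.replicate n 2 ++ 4 :: List.replicate (n + 1) 3)

/-- Conditional words. -/
noncomputable def W : Gen → ℕ → Word rk
  | none, _ => []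
  | some (j, k, x), n => mono0 j k (condL x n)

theorem primrec_W : Primrec₂ W := by
  refine primrec_fin_param W fun g => ?_
  rcases g with _ | ⟨j, k, x⟩
  · exact Primrec.const []
  · have h1 : Primrec (condL x) :=
      Primrec.list_cons.comp (Primrec.const x) (Primrec.list_cons.comp (Primrec.const 1)
        (Primrec.list_append.comp (primrec_replicate 2) (Primrec.list_cons.comp (Primrec.const 4)
          ((primrec_replicate 3).comp Primrec.succ))))
    have h2 : Primrec (mono0 j k) := primrec_mono (fun j l => Primrec.dom_finite _) _ j k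
    exact (h2.comp h1).of_eq fun n => rfl

theorem mono0_hom {H M : Type} [Group H] [Monoid M] (φ : FreeGroup (Fin rk) →* H)
    (E : Fin 3 → Fin 3 → M → H)
    (hE : ∀ j l k, j ≠ l → l ≠ k → j ≠ k → ∀ x y, ⁅E j l x, E l k y⁆ = E j k (x * y))
    (hE0 : ∀ j x, E j j x = 1) (val : Fin 15 → M) (h0 : val 0 = 1)
    (hφ : ∀ j k x, φ (FreeGroup.mk (lt (some (j, k, x)))) = E j k (val x)) (j k : Fin 3)
    (L : List (Fin 15)) : φ (FreeGroup.mk (mono0 j k L)) = E j k (L.map val).prod :=
  mono_hom φ E hE hE0 _ _ val L (fun a _ j l => hφ j l a) (fun j k => h0 ▸ hφ j k 0) j k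

/-- The relators making the generator `g` conditional. -/
noncomputable def condRel (z : Gen × ℕ × ℕ) : Word rk :=
  if evaln z.2.2 (Denumerable.ofNat Code z.2.1) z.2.1 = some 0 then W z.1 z.2.1
  else if evaln z.2.2 (Denumerable.ofNat Code z.2.1) z.2.1 = some 1 then
    W z.1 z.2.1 ++ FreeGroup.invRev (lt z.1) else []

theorem primrec_condRel : Primrec condRel := by
  have h1 : Primrec fun z : Gen × ℕ × ℕ => evaln z.2.2 (Denumerable.ofNat Code z.2.1) z.2.1 :=
    primrec_evaln.comp (((Primrec.snd.comp Primrec.snd).pair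
      ((Primrec.ofNat Code).comp (Primrec.fst.comp Primrec.snd))).pair
      (Primrec.fst.comp Primrec.snd))
  have h2 : Primrec fun z : Gen × ℕ × ℕ => W z.1 z.2.1 :=
    primrec_W.comp Primrec.fst (Primrec.fst.comp Primrec.snd)
  have h3 : Primrec fun z : Gen × ℕ × ℕ => FreeGroup.invRev (lt z.1) :=
    (Primrec.dom_finite fun g : Gen => FreeGroup.invRev (lt g)).comp Primrec.fst
  exact Primrec.ite (Primrec.eq.comp h1 (Primrec.const _)) h2
    (Primrec.ite (Primrec.eq.comp h1 (Primrec.const _)) (Primrec.list_append.comp h2 h3)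
      (Primrec.const _))

theorem condRel_ev {R : Set (Word rk)} {g : Gen} (h : ∀ n s, condRel (g, n, s) ∈ R) (n : ℕ) :
    (0 ∈ dg n → ev R (W g n) = 1) ∧ (1 ∈ dg n → ev R (W g n) = ev R (lt g)) := by
  constructor
  · intro h0
    obtain ⟨s, hs⟩ := evaln_complete.1 h0
    have := ev_rel (h n s)
    simpa [condRel, Option.mem_def.1 hs] using this
  · intro h1
    obtain ⟨s, hs⟩ := evaln_complete.1 h1
    have := ev_rel (h n s)
    simp only [condRel, Option.mem_def.1 hs, Option.some.injEq, one_ne_zero, if_false, if_true,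
      ev_append, ev_invRev] at this
    exact mul_inv_eq_one.1 this

theorem condRel_hom {H : Type} [Group H] (φ : FreeGroup (Fin rk) →* H) {g : Gen}
    (h0 : ∀ n, 1 ∉ dg n → φ (FreeGroup.mk (W g n)) = 1)
    (h1 : ∀ n, 1 ∈ dg n → φ (FreeGroup.mk (W g n)) = φ (FreeGroup.mk (lt g))) (n s : ℕ) :
    φ (FreeGroup.mk (condRel (g, n, s))) = 1 := by
  unfold condRel
  dsimp only
  split_ifs with a b
  · refine h0 n fun h => ?_
    have := Part.mem_unique h (evaln_sound a)
    omega
  · rw [← FreeGroup.mul_mk, ← FreeGroup.inv_mk, map_mul, map_inv, h1 n (evaln_sound b),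
      mul_inv_cancel]
  · rw [← FreeGroup.one_eq_mk, map_one]

theorem hard_of_noninv (R : Set (Word rk)) {e : ℕ → Word rk} (he : Computable e)
    (hs : Function.Surjective e) (S0 : Gen → Prop)
    (hR : ∀ g, S0 g → ∀ n s, condRel (g, n, s) ∈ R) {k : ℕ} (X : Set (Grp R → Fin k))
    (hX : ∀ x ∈ X, ∃ u g, S0 g ∧ x (ev R (u ++ lt g)) ≠ x (ev R u)) : Hard (hat R e X) := by
  classical
  obtain ⟨idx, hidx, hi⟩ := exists_idx he hs
  let Z := (List ℕ × ℕ × ℕ) × (Word rk × Gen)
  let i1 : Z → ℕ := fun z => idx (z.2.1 ++ lt z.2.2)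
  let i2 : Z → ℕ := fun z => idx z.2.1
  let i3 : Z → ℕ := fun z => idx (z.2.1 ++ W z.2.2 z.1.2.1)
  have c0 : Computable fun z : Z => z.1.1 := Computable.fst.comp Computable.fst
  have cu : Computable fun z : Z => z.2.1 := Computable.fst.comp Computable.snd
  have cg : Computable fun z : Z => z.2.2 := Computable.snd.comp Computable.snd
  have cn : Computable fun z : Z => z.1.2.1 :=
    Computable.fst.comp (Computable.snd.comp Computable.fst)
  have cc : Computable fun z : Z => z.1.2.2 :=
    Computable.snd.comp (Computable.snd.comp Computable.fst)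
  have c1 : Computable i1 :=
    hidx.comp (Computable.list_append.comp cu ((Primrec.dom_finite lt).to_comp.comp cg))
  have c2 : Computable i2 := hidx.comp cu
  have c3 : Computable i3 :=
    hidx.comp (Computable.list_append.comp cu (primrec_W.to_comp.comp cg cn))
  have cl : Computable fun z : Z => z.1.1.length := Computable.list_length.comp c0
  have d1 : Computable fun z : Z => z.1.1.getD (i1 z) 0 := (Primrec.list_getD 0).to_comp.comp c0 c1
  have d2 : Computable fun z : Z => z.1.1.getD (i2 z) 0 := (Primrec.list_getD 0).to_comp.comp c0 c2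
  have d3 : Computable fun z : Z => z.1.1.getD (i3 z) 0 := (Primrec.list_getD 0).to_comp.comp c0 c3
  have hS : REPred fun z : Z => S0 z.2.2 :=
    re_of_ppred (p := S0) (Primrec.dom_finite fun g => decide (S0 g)).primrecPred cg
  have hre : REPred fun z : Z => S0 z.2.2 ∧ i1 z < z.1.1.length ∧ i2 z < z.1.1.length ∧
      i3 z < z.1.1.length ∧ z.1.1.getD (i1 z) 0 ≠ z.1.1.getD (i2 z) 0 ∧
      ((z.1.1.getD (i3 z) 0 = z.1.1.getD (i2 z) 0 ∧ z.1.2.2 = 1) ∨
        (z.1.1.getD (i3 z) 0 ≠ z.1.1.getD (i2 z) 0 ∧ z.1.2.2 = 0)) :=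
    re_and hS (re_and (re_lt c1 cl) (re_and (re_lt c2 cl) (re_and (re_lt c3 cl)
      (re_and (re_ne d1 d2) (re_or (re_and (re_eq d3 d2) (re_eq cc (Computable.const 1)))
        (re_and (re_ne d3 d2) (re_eq cc (Computable.const 0))))))))
  refine ⟨_, re_exists hre, ?_, ?_⟩
  · rintro y ⟨x, hx, rfl⟩ n
    obtain ⟨u, g, hg, hne⟩ := hX x hx
    let m := idx (u ++ lt g) + idx u + idx (u ++ W g n) + 1
    have e1 : idx (u ++ lt g) < m := by omega
    have e2 : idx u < m := by omega
    have e3 : idx (u ++ W g n) < m := by omega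
    by_cases hd : x (ev R (u ++ W g n)) = x (ev R u)
    · refine ⟨m, 1, by omega, (u, g), hg, by simpa using e1, by simpa using e2, by simpa using e3,
        ?_, Or.inl ⟨?_, rfl⟩⟩
      · simp only [i1, i2, pre_getD _ e1, pre_getD _ e2, hi]
        exact fun h => hne (Fin.ext h)
      · simp only [i3, i2, pre_getD _ e3, pre_getD _ e2, hi, hd]
    · refine ⟨m, 0, by omega, (u, g), hg, by simpa using e1, by simpa using e2, by simpa using e3,
        ?_, Or.inr ⟨?_, rfl⟩⟩
      · simp only [i1, i2, pre_getD _ e1, pre_getD _ e2, hi]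
        exact fun h => hne (Fin.ext h)
      · simp only [i3, i2, pre_getD _ e3, pre_getD _ e2, hi]
        exact fun h => hd (Fin.ext h)
  · rintro y ⟨x, hx, rfl⟩ m n c ⟨⟨u, g⟩, hg, e1, e2, e3, hne, hc⟩ hdg
    simp only [i1, i2, i3, pre_length] at e1 e2 e3
    simp only [i1, i2, i3, pre_getD _ e1, pre_getD _ e2, pre_getD _ e3, hi] at hne hc
    obtain ⟨w0, w1⟩ := condRel_ev (hR g hg) n
    rcases hc with ⟨h, rfl⟩ | ⟨h, rfl⟩
    · rw [ev_append, w1 hdg, ← ev_append] at h
      exact hne h
    · rw [ev_append, w0 hdg, mul_one] at h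
      exact h rfl

end Pool.Agent.H49Z.Med
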