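import Pool.Agent.H49Z.Med.RE

/-!
Mass problems that uniformly enumerate a two-valued diagonally noncomputable function, and the
proof that four-valued avoidance problems are not of this kind.
-/

set_option autoImplicit false

namespace Pool.Agent.H49Z.Med

open Encodable

@[simp] theorem pre_length (y : ℕ → ℕ) (m : ℕ) : (pre y m).length = m := by simp [pre]

theorem pre_succ (y : ℕ → ℕ) (m : ℕ) : pre y (m + 1) = pre y m ++ [y m] := by
  simp [pre, List.range_succ]

theorem pre_getD (y : ℕ → ℕ) {m i : ℕ} (h : i < m) : (pre y m).getD i 0 = y i := by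
  simp [pre, List.getD_eq_getElem?_getD, h]

theorem pre_getElem? (y : ℕ → ℕ) {m i : ℕ} (h : i < m) : (pre y m)[i]? = some (y i) := by
  simp [pre, h]

theorem pre_prefix (y : ℕ → ℕ) {m n : ℕ} (h : m ≤ n) : pre y m <+: pre y n := by
  induction n, h using Nat.le_induction with
  | base => exact List.prefix_refl _
  | succ n _ ih => rw [pre_succ]; exact ih.trans (List.prefix_append _ _)

/-- Every member of `Q` uniformly enumerates a two-valued diagonally noncomputable function. -/
def Hard (Q : Set (ℕ → ℕ)) : Prop :=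
  ∃ good : List ℕ × ℕ × ℕ → Prop, REPred good ∧
    (∀ y ∈ Q, ∀ n, ∃ m c, c < 2 ∧ good (pre y m, n, c)) ∧
    (∀ y ∈ Q, ∀ m n c, good (pre y m, n, c) → c ∉ dg n)

theorem take_eq_pre {f : List ℕ → List ℕ} (hmono : ∀ σ τ : List ℕ, σ <+: τ → f σ <+: f τ)
    {x y : ℕ → ℕ} (h : ∀ n : ℕ, ∃ m : ℕ, pre x n <+: f (pre y m)) {m m' : ℕ}
    (hm : m ≤ (f (pre y m')).length) : (f (pre y m')).take m = pre x m := by
  obtain ⟨m'', h''⟩ := h m
  have h1 : f (pre y m') <+: f (pre y (max m' m'')) := hmono _ _ (pre_prefix y (le_max_left _ _))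
  have h2 : pre x m <+: f (pre y (max m' m'')) :=
    h''.trans (hmono _ _ (pre_prefix y (le_max_right _ _)))
  have h3 : (f (pre y m')).take m <+: f (pre y (max m' m'')) := (List.take_prefix _ _).trans h1
  exact (List.prefix_of_prefix_length_le h3 h2 (by simp)).eq_of_length (by simp [hm])

theorem Hard.medLE {Q Q' : Set (ℕ → ℕ)} (hQ : Hard Q) (h : MedLE Q Q') : Hard Q' := by
  obtain ⟨good, hre, h1, h2⟩ := hQ
  obtain ⟨f, hf, hmono, hred⟩ := h
  refine ⟨fun z => ∃ m, m ≤ (f z.1).length ∧ good ((f z.1).take m, z.2), ?_, ?_, ?_⟩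
  · refine re_exists (p := fun w : (List ℕ × ℕ × ℕ) × ℕ =>
      w.2 ≤ (f w.1.1).length ∧ good ((f w.1.1).take w.2, w.1.2)) (re_and ?_ ?_)
    · exact re_le Computable.snd (Computable.list_length.comp
          (hf.comp (Computable.fst.comp Computable.fst)))
    · exact re_comp hre ((Primrec.list_take.to_comp.comp Computable.snd
        (hf.comp (Computable.fst.comp Computable.fst))).pair
        (Computable.snd.comp Computable.fst))
  · intro y hy n
    obtain ⟨x, hx, hxy⟩ := hred y hy
    obtain ⟨m, c, hc, hg⟩ := h1 x hx n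
    obtain ⟨m', hm'⟩ := hxy m
    have hl : m ≤ (f (pre y m')).length := by simpa using hm'.length_le
    refine ⟨m', c, hc, m, hl, ?_⟩
    rw [take_eq_pre hmono hxy hl]; exact hg
  · rintro y hy m' n c ⟨m, hl, hg⟩
    obtain ⟨x, hx, hxy⟩ := hred y hy
    rw [take_eq_pre hmono hxy hl] at hg
    exact h2 x hx m n c hg

theorem Hard.tt {Q P : Set (ℕ → ℕ)} (hQ : Hard Q) {use : ℕ → ℕ} {out : ℕ × ℕ → ℕ}
    (hu : Computable use) (ho : Computable out)
    (h : ∀ p ∈ P, (fun j => out (j, p (use j))) ∈ Q) : Hard P := by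
  obtain ⟨good, hre, h1, h2⟩ := hQ
  have key : ∀ (p : ℕ → ℕ) (m m' : ℕ), (∀ j ∈ List.range m, use j < m') →
      (List.range m).map (fun j => out (j, (pre p m').getD (use j) 0)) =
        pre (fun j => out (j, p (use j))) m := by
    intro p m m' hm
    unfold pre
    refine List.map_congr_left fun j hj => ?_
    rw [← pre, pre_getD p (hm j hj)]
  refine ⟨fun z => ∃ m, (∀ j ∈ List.range m, use j < z.1.length) ∧
    good ((List.range m).map (fun j => out (j, z.1.getD (use j) 0)), z.2), ?_, ?_, ?_⟩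
  · refine re_exists (p := fun w : (List ℕ × ℕ × ℕ) × ℕ =>
      (∀ j ∈ List.range w.2, use j < w.1.1.length) ∧
        good ((List.range w.2).map (fun j => out (j, w.1.1.getD (use j) 0)), w.1.2))
      (re_and ?_ ?_)
    · exact re_forall_mem (p := fun v : ((List ℕ × ℕ × ℕ) × ℕ) × ℕ => use v.2 < v.1.1.1.length)
        (re_lt (hu.comp Computable.snd) (Computable.list_length.comp
            (Computable.fst.comp (Computable.fst.comp Computable.fst))))
        (Primrec.list_range.to_comp.comp Computable.snd)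
    · refine re_comp hre (Computable.pair ?_ (Computable.snd.comp Computable.fst))
      exact comp_map_range
        (g := fun v : ((List ℕ × ℕ × ℕ) × ℕ) × ℕ => out (v.2, v.1.1.1.getD (use v.2) 0))
        (ho.comp (Computable.snd.pair ((Primrec.list_getD 0).to_comp.comp
          (Computable.fst.comp (Computable.fst.comp Computable.fst)) (hu.comp Computable.snd))))
        Computable.snd
  · intro p hp n
    obtain ⟨m, c, hc, hg⟩ := h1 _ (h p hp) n
    have hb : ∀ j ∈ List.range m, use j < (Finset.range m).sup use + 1 := by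
      intro j hj
      exact Nat.lt_succ_of_le (Finset.le_sup (f := use) (by simpa using hj))
    refine ⟨(Finset.range m).sup use + 1, c, hc, m, by simpa using hb, ?_⟩
    rw [key p m _ hb]; exact hg
  · rintro p hp m' n c ⟨m, hl, hg⟩
    rw [key p m m' (by simpa using hl)] at hg
    exact h2 _ (h p hp) m n c hg

theorem MedLE.computable {P Q : Set (ℕ → ℕ)} (h : MedLE P Q) {y : ℕ → ℕ} (hy : y ∈ Q)
    (hc : Computable y) : ∃ x ∈ P, Computable x := by
  obtain ⟨f, hf, hmono, hred⟩ := h
  obtain ⟨x, hx, hxy⟩ := hred y hy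
  have hre : REPred fun z : ℕ × ℕ => ∃ m, (f (pre y m))[z.1]? = some z.2 :=
    re_exists (p := fun w : (ℕ × ℕ) × ℕ => (f (pre y w.2))[w.1.1]? = some w.1.2)
      (re_eq (Computable.list_getElem?.comp (hf.comp ((comp_pre hc).comp Computable.snd))
          (Computable.fst.comp Computable.fst))
          (Computable.option_some.comp (Computable.snd.comp Computable.fst)))
  have hval : ∀ n v m, (f (pre y m))[n]? = some v → v = x n := by
    intro n v m hm
    have hl : n + 1 ≤ (f (pre y m)).length := by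
      by_contra hh
      rw [List.getElem?_eq_none (by omega)] at hm
      cases hm
    have h1 := take_eq_pre hmono hxy hl
    have h2 : ((f (pre y m)).take (n + 1))[n]? = some v := by
      rw [List.getElem?_take_of_lt (Nat.lt_succ_self n)]; exact hm
    rw [h1, pre_getElem? x (Nat.lt_succ_self n)] at h2
    exact (Option.some.inj h2).symm
  obtain ⟨g, hg, hgs⟩ := re_uniformize hre fun n => by
    obtain ⟨m, hm⟩ := hxy (n + 1)
    obtain ⟨t, ht⟩ := hm
    refine ⟨x n, m, ?_⟩
    rw [← ht, List.getElem?_append_left (by simp), pre_getElem? x (Nat.lt_succ_self n)]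
  refine ⟨x, hx, hg.of_eq fun n => ?_⟩
  obtain ⟨m, hm⟩ := hgs n
  exact hval n _ m hm

/-- A finite binary subtree of the four-branching tree above `τ` with leaves in `L`. -/
inductive Win (L : List ℕ → Prop) : List ℕ → Prop
  | leaf {τ : List ℕ} : L τ → Win L τ
  | node {τ : List ℕ} {i j : ℕ} : i < 4 → j < 4 → i ≠ j → Win L (τ ++ [i]) → Win L (τ ++ [j]) →
      Win L τ

/-- Certificates for `Win`. -/
def Cert (L : List ℕ → Prop) (T : List (List ℕ)) : Prop :=
  ∀ τ ∈ T, L τ ∨ ∃ ij : ℕ × ℕ, ij.1 < 4 ∧ ij.2 < 4 ∧ ij.1 ≠ ij.2 ∧ τ ++ [ij.1] ∈ T ∧ τ ++ [ij.2] ∈ T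

theorem Win.cert {L : List ℕ → Prop} {τ : List ℕ} (h : Win L τ) : ∃ T, τ ∈ T ∧ Cert L T := by
  induction h with
  | @leaf τ h => exact ⟨[τ], by simp, fun σ hσ => Or.inl (by simp at hσ; exact hσ ▸ h)⟩
  | @node τ i j hi hj hij _ _ ih1 ih2 =>
    obtain ⟨T1, h1, c1⟩ := ih1
    obtain ⟨T2, h2, c2⟩ := ih2
    refine ⟨τ :: (T1 ++ T2), by simp, fun σ hσ => ?_⟩
    rcases List.mem_cons.1 hσ with rfl | hσ
    · exact Or.inr ⟨(i, j), hi, hj, hij, by simp [h1], by simp [h2]⟩
    · rcases List.mem_append.1 hσ with hσ | hσ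
      · rcases c1 σ hσ with h | ⟨ij, a, b, c, d, e⟩
        · exact Or.inl h
        · exact Or.inr ⟨ij, a, b, c, by simp [d], by simp [e]⟩
      · rcases c2 σ hσ with h | ⟨ij, a, b, c, d, e⟩
        · exact Or.inl h
        · exact Or.inr ⟨ij, a, b, c, by simp [d], by simp [e]⟩

theorem ppred_mem {α : Type} [Primcodable α] : PrimrecPred fun z : α × List α => z.1 ∈ z.2 := by
  have h : PrimrecRel fun (a b : α) => a = b := Primrec.eq
  exact (h.exists_mem_list.comp Primrec.snd Primrec.fst).of_eq (by simp)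

theorem not_hard (Bad : ℕ × ℕ → Prop) (hB : REPred Bad)
    (huniq : ∀ e d d', Bad (e, d) → Bad (e, d') → d = d') :
    ¬ Hard {p | ∀ e, p e < 4 ∧ ¬ Bad (e, p e)} := by
  classical
  rintro ⟨good, hre, h1, h2⟩
  let L : ℕ × ℕ → List ℕ → Prop := fun nc τ =>
    good (τ, nc) ∨ ∃ e, e < τ.length ∧ Bad (e, τ.getD e 0)
  have hL : REPred fun z : (ℕ × ℕ) × List ℕ => L z.1 z.2 := by
    refine re_or (re_comp hre (Computable.snd.pair Computable.fst)) ?_
    refine re_exists (p := fun w : ((ℕ × ℕ) × List ℕ) × ℕ =>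
      w.2 < w.1.2.length ∧ Bad (w.2, w.1.2.getD w.2 0)) (re_and ?_ ?_)
    · exact re_lt Computable.snd
        (Computable.list_length.comp (Computable.snd.comp Computable.fst))
    · have h3 : Computable fun w : ((ℕ × ℕ) × List ℕ) × ℕ => w.1.2.getD w.2 0 :=
        (Primrec.list_getD 0).to_comp.comp (Computable.snd.comp Computable.fst) Computable.snd
      have h4 : Computable fun w : ((ℕ × ℕ) × List ℕ) × ℕ => (w.2, w.1.2.getD w.2 0) :=
        Computable.snd.pair h3
      exact re_comp (p := Bad) hB h4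
  have hW : REPred fun nc : ℕ × ℕ => ∃ T : List (List ℕ), [] ∈ T ∧ Cert (L nc) T := by
    refine re_exists (p := fun w : (ℕ × ℕ) × List (List ℕ) => [] ∈ w.2 ∧ Cert (L w.1) w.2)
      (re_and ?_ ?_)
    · exact re_of_ppred (p := fun z : List ℕ × List (List ℕ) => z.1 ∈ z.2) ppred_mem
        ((Computable.const []).pair Computable.snd)
    · refine re_forall_mem (p := fun v : ((ℕ × ℕ) × List (List ℕ)) × List ℕ =>
        L v.1.1 v.2 ∨ ∃ ij : ℕ × ℕ, ij.1 < 4 ∧ ij.2 < 4 ∧ ij.1 ≠ ij.2 ∧ v.2 ++ [ij.1] ∈ v.1.2 ∧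
          v.2 ++ [ij.2] ∈ v.1.2) (re_or ?_ ?_) Computable.snd
      · exact re_comp hL ((Computable.fst.comp Computable.fst).pair Computable.snd)
      · refine re_exists (p := fun u : (((ℕ × ℕ) × List (List ℕ)) × List ℕ) × (ℕ × ℕ) =>
          u.2.1 < 4 ∧ u.2.2 < 4 ∧ u.2.1 ≠ u.2.2 ∧ u.1.2 ++ [u.2.1] ∈ u.1.1.2 ∧
          u.1.2 ++ [u.2.2] ∈ u.1.1.2) (PrimrecPred.computablePred ?_).to_re
        refine (Primrec.nat_lt.comp (Primrec.fst.comp Primrec.snd) (Primrec.const 4)).and
          ((Primrec.nat_lt.comp (Primrec.snd.comp Primrec.snd) (Primrec.const 4)).and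
          ((Primrec.eq.comp (Primrec.fst.comp Primrec.snd) (Primrec.snd.comp Primrec.snd)).not.and
          (PrimrecPred.and ?_ ?_)))
        · exact ppred_mem.comp ((Primrec.list_concat.comp (Primrec.snd.comp Primrec.fst)
            (Primrec.fst.comp Primrec.snd)).pair (Primrec.snd.comp (Primrec.fst.comp Primrec.fst)))
        · exact ppred_mem.comp ((Primrec.list_concat.comp (Primrec.snd.comp Primrec.fst)
            (Primrec.snd.comp Primrec.snd)).pair (Primrec.snd.comp (Primrec.fst.comp Primrec.fst)))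
  -- soundness
  have sound : ∀ n c, (∃ T : List (List ℕ), [] ∈ T ∧ Cert (L (n, c)) T) → c ∉ dg n := by
    rintro n c ⟨T, hT0, hT⟩
    let alive : List ℕ → Prop := fun τ =>
      ∀ e, e < τ.length → τ.getD e 0 < 4 ∧ ¬ Bad (e, τ.getD e 0)
    obtain ⟨B, hBd⟩ : ∃ B, ∀ τ ∈ T, τ.length ≤ B :=
      ⟨(T.map List.length).sum, fun τ hτ => List.single_le_sum (by simp) _ (List.mem_map_of_mem hτ)⟩
    have ext : ∀ τ i, alive τ → i < 4 → ¬ Bad (τ.length, i) → alive (τ ++ [i]) := by
      intro τ i ha hi hb e he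
      by_cases h : e < τ.length
      · have : (τ ++ [i]).getD e 0 = τ.getD e 0 := by
          simp [List.getD_eq_getElem?_getD, List.getElem?_append_left h]
        rw [this]; exact ha e h
      · have he' : e = τ.length := by simp at he; omega
        subst he'
        have : (τ ++ [i]).getD τ.length 0 = i := by simp [List.getD_eq_getElem?_getD]
        rw [this]; exact ⟨hi, hb⟩
    have step : ∀ d, ∀ τ ∈ T, alive τ → B ≤ τ.length + d → ∃ σ, alive σ ∧ good (σ, n, c) := by
      intro d
      induction d with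
      | zero =>
        intro τ hτ ha hd
        rcases hT τ hτ with (h | ⟨e, he, hb⟩) | ⟨ij, -, -, -, h, -⟩
        · exact ⟨τ, ha, h⟩
        · exact absurd hb (ha e he).2
        · have := hBd _ h
          simp at this; omega
      | succ d ih =>
        intro τ hτ ha hd
        rcases hT τ hτ with (h | ⟨e, he, hb⟩) | ⟨ij, hi, hj, hij, h, h'⟩
        · exact ⟨τ, ha, h⟩
        · exact absurd hb (ha e he).2
        · by_cases hb : Bad (τ.length, ij.1)
          · have hb' : ¬ Bad (τ.length, ij.2) := fun hb' => hij (huniq _ _ _ hb hb')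
            exact ih _ h' (ext _ _ ha hj hb') (by simp; omega)
          · exact ih _ h (ext _ _ ha hi hb) (by simp; omega)
    obtain ⟨σ, ha, hg⟩ := step B [] hT0 (fun e he => by simp at he) (by simp)
    let p : ℕ → ℕ := fun e => if e < σ.length then σ.getD e 0 else if Bad (e, 0) then 1 else 0
    have hp : ∀ e, p e < 4 ∧ ¬ Bad (e, p e) := by
      intro e
      by_cases he : e < σ.length
      · simp only [p, if_pos he]; exact ha e he
      · by_cases hb : Bad (e, 0)
        · simp only [p, if_neg he, if_pos hb]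
          exact ⟨by omega, fun h => by have := huniq _ _ _ hb h; omega⟩
        · simp only [p, if_neg he, if_neg hb]
          exact ⟨by omega, hb⟩
    have hpre : pre p σ.length = σ := by
      apply List.ext_getElem (by simp)
      intro i h1 h2
      simp [pre, p, h2, List.getD_eq_getElem?_getD]
    refine h2 p hp σ.length n c ?_
    rw [hpre]; exact hg
  -- totality
  have total : ∀ n, ∃ c, ∃ T : List (List ℕ), [] ∈ T ∧ Cert (L (n, c)) T := by
    intro n
    by_contra hno
    push Not at hno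
    let S := {τ : List ℕ // ¬ Win (L (n, 0)) τ ∧ ¬ Win (L (n, 1)) τ}
    have nxt : ∀ τ : S, ∃ i, i < 4 ∧ ¬ Win (L (n, 0)) (τ.1 ++ [i]) ∧
        ¬ Win (L (n, 1)) (τ.1 ++ [i]) := by
      rintro ⟨τ, h0, h1⟩
      by_contra hh
      push Not at hh
      have a0 : ∀ i j, i < 4 → j < 4 → i ≠ j → Win (L (n, 0)) (τ ++ [i]) →
          ¬ Win (L (n, 0)) (τ ++ [j]) := fun i j hi hj hij a b => h0 (Win.node hi hj hij a b)
      have a1 : ∀ i j, i < 4 → j < 4 → i ≠ j → Win (L (n, 1)) (τ ++ [i]) →
          ¬ Win (L (n, 1)) (τ ++ [j]) := fun i j hi hj hij a b => h1 (Win.node hi hj hij a b)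
      by_cases b0 : Win (L (n, 0)) (τ ++ [0])
      · exact a1 1 2 (by omega) (by omega) (by omega)
          (hh 1 (by omega) (a0 0 1 (by omega) (by omega) (by omega) b0))
          (hh 2 (by omega) (a0 0 2 (by omega) (by omega) (by omega) b0))
      · have c0 := hh 0 (by omega) b0
        by_cases b1 : Win (L (n, 0)) (τ ++ [1])
        · exact a1 0 2 (by omega) (by omega) (by omega) c0
            (hh 2 (by omega) (a0 1 2 (by omega) (by omega) (by omega) b1))
        · exact a1 0 1 (by omega) (by omega) (by omega) c0 (hh 1 (by omega) b1)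
    choose nx hnx using nxt
    have r0 : ¬ Win (L (n, 0)) [] ∧ ¬ Win (L (n, 1)) [] :=
      ⟨fun h => by obtain ⟨T, a, b⟩ := h.cert; exact hno 0 T a b,
        fun h => by obtain ⟨T, a, b⟩ := h.cert; exact hno 1 T a b⟩
    let seq : ℕ → S := fun m => Nat.rec ⟨[], r0⟩ (fun _ τ => ⟨τ.1 ++ [nx τ], (hnx τ).2⟩) m
    let p : ℕ → ℕ := fun e => nx (seq e)
    have hpre : ∀ m, pre p m = (seq m).1 := by
      intro m
      induction m with
      | zero => rfl
      | succ m ih => rw [pre_succ, ih]
    have hp : ∀ e, p e < 4 ∧ ¬ Bad (e, p e) := by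
      intro e
      refine ⟨(hnx _).1, fun hb => ?_⟩
      have h0 : ¬ Win (L (n, 0)) (pre p (e + 1)) := by rw [hpre]; exact (seq (e + 1)).2.1
      refine h0 (Win.leaf (Or.inr ⟨e, by simp, ?_⟩))
      rw [pre_getD p (Nat.lt_succ_self e)]; exact hb
    obtain ⟨m, c, hc, hg⟩ := h1 p hp n
    rw [hpre] at hg
    have hc' : c = 0 ∨ c = 1 := by omega
    rcases hc' with rfl | rfl
    · exact (seq m).2.1 (Win.leaf (Or.inl hg))
    · exact (seq m).2.2 (Win.leaf (Or.inl hg))
  obtain ⟨k, hk, hks⟩ := re_uniformize hW total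
  obtain ⟨n, hn⟩ := exists_diag hk
  exact sound n (k n) (hks n) hn

end Pool.Agent.H49Z.Med
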