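import Pool.Agent.H49Z.Med.Sof

/-!
A sofic subshift whose Medvedev degree is not the degree of any subshift of finite type.
-/

set_option autoImplicit false

namespace Pool.Agent.H49Z.Med

open Matrix Nat.Partrec.Code
open Nat.Partrec (Code)
open scoped commutatorElement

/-- The subgroup generated by the elementary generators. -/
def NN : Subgroup (Grp R2) := Subgroup.closure {a | ∃ g : Gen, g ≠ none ∧ a = ev R2 (lt g)}

theorem lt_mem (s : Fin 3 × Fin 3 × Fin 15) : ev R2 (lt (some s)) ∈ NN :=
  Subgroup.subset_closure ⟨some s, by simp, rfl⟩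

theorem mono0_mem (j k : Fin 3) (L : List (Fin 15)) : ev R2 (mono0 j k L) ∈ NN :=
  (mono_rel (H := Unit) (M := Unit) ((NN.comap (PresentedGroup.mk _)).prod ⊤) (fun _ _ _ => ())
    (fun _ _ _ _ _ _ _ _ => rfl) (fun _ _ => rfl) _ _ (fun _ => ()) L
    (fun a _ j l => ⟨lt_mem (j, l, a), trivial⟩) (fun j l => ⟨lt_mem (j, l, 0), trivial⟩) j k).1

theorem conj_mem {a : Grp R2} (h : ∀ s, a * ev R2 (lt (some s)) * a⁻¹ ∈ NN) :
    ∀ ν ∈ NN, a * ν * a⁻¹ ∈ NN := by
  intro ν hν
  induction hν using Subgroup.closure_induction with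
  | mem b hb =>
    obtain ⟨g, hg, rfl⟩ := hb
    rcases g with _ | s
    · exact absurd rfl hg
    · exact h s
  | one => simp
  | mul b c _ _ hb hc =>
    have := NN.mul_mem hb hc
    simpa [mul_assoc] using this
  | inv b _ hb =>
    have := NN.inv_mem hb
    simpa [mul_assoc] using this

theorem of_eq_ev (i : Fin rk) : (PresentedGroup.of i : Grp R2) = ev R2 (lt (sg.symm i)) := by
  simp [lt, ev_of]

instance NN_normal : NN.Normal := by
  have h1 : ∀ s, ev R2 (lt none) * ev R2 (lt (some s)) * (ev R2 (lt none))⁻¹ ∈ NN := by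
    intro s
    have := ev_rel (R := R2) (w := conjRel (s, true)) (Or.inr (Or.inl ⟨_, rfl⟩))
    simp only [conjRel, if_true, ev_append, ev_invRev, mul_inv_eq_one] at this
    rw [this]; exact mono0_mem _ _ _
  have h2 : ∀ s, (ev R2 (lt none))⁻¹ * ev R2 (lt (some s)) * (ev R2 (lt none))⁻¹⁻¹ ∈ NN := by
    intro s
    have := ev_rel (R := R2) (w := conjRel (s, false)) (Or.inr (Or.inl ⟨_, rfl⟩))
    simp only [conjRel, Bool.false_eq_true, if_false, ev_append, ev_invRev, mul_inv_eq_one] at this
    rw [inv_inv, this]; exact mono0_mem _ _ _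
  rw [← Subgroup.normalizer_eq_top_iff, eq_top_iff]
  intro g _
  refine PresentedGroup.generated_by _ _ (fun i => ?_) g
  rw [of_eq_ev]
  rcases sg.symm i with _ | s
  · refine Subgroup.mem_normalizer_iff.2 fun ν => ⟨conj_mem h1 ν, fun h => ?_⟩
    have := conj_mem h2 _ h
    simpa [mul_assoc] using this
  · exact Subgroup.le_normalizer (lt_mem s)

theorem ev_tw (i : ℕ) : ev R2 (tw i) = ev R2 (lt none) ^ i := by
  rw [ev, mk_tw, map_pow]; rfl

theorem vecMul_el {j k : Fin 3} (hjk : j ≠ k) (v : Fin 3 → K2) :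
    (v ᵥ* (el j k (1 : K2) : Matrix (Fin 3) (Fin 3) K2)) k = v k + v j := by
  simp [el_val hjk, vecMul, dotProduct, single_apply, Matrix.one_apply, mul_add,
    Finset.sum_add_distrib]

theorem sound {x : Grp R2 → Fin 8 × (Fin 3 → K2)} (hx : ∀ g, Ok fun h => x (g * h)) {e v : ℕ}
    (hv : v ∈ dg e) (hl : (wd v).length = 2 ^ (e + 3)) :
    ¬ ∀ i < (wd v).length, (x (ev R2 (tw i))).1.val = (wd v).getD i 0 % 8 := by
  intro hocc
  set τ := ev R2 (lt none) with hτ
  have yN : ∀ ν ∈ NN, ∀ a, (x (a * ν)).1 = (x a).1 :=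
    inv_of_gens (fun g => (x g).1) (fun g => g ≠ none) fun u g hg => by
      rcases g with _ | s
      · exact absurd rfl hg
      · have := (hx (ev R2 u)).2.1 s
        simpa [ev_append] using this
  have zt : ∀ i : ℕ, ∀ a, (x (a * τ ^ i)).2 = (x a).2 := by
    intro i
    induction i with
    | zero => simp
    | succ n ih =>
      intro a
      have := (hx (a * τ ^ n)).2.2.1
      rw [pow_succ, ← mul_assoc, ← ih a]
      simpa using this
  let K : Subgroup (FreeGroup (Fin rk) × (Matrix (Fin 3) (Fin 3) K2)ˣ) :=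
    { carrier := {q | PresentedGroup.mk (FreeGroup.mk '' R2) q.1 ∈ NN ∧ ∀ ν ∈ NN,
        (x (ν * PresentedGroup.mk (FreeGroup.mk '' R2) q.1)).2 =
          (x ν).2 ᵥ* (q.2 : Matrix (Fin 3) (Fin 3) K2)}
      one_mem' := ⟨by simp, fun ν _ => by simp⟩
      mul_mem' := by
        rintro a b ⟨a1, a2⟩ ⟨b1, b2⟩
        refine ⟨by simpa using NN.mul_mem a1 b1, fun ν hν => ?_⟩
        rw [Prod.fst_mul, map_mul, ← mul_assoc, b2 _ (NN.mul_mem hν a1), a2 _ hν, vecMul_vecMul]
        rfl
      inv_mem' := by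
        rintro a ⟨a1, a2⟩
        refine ⟨by simpa using a1, fun ν hν => ?_⟩
        have := a2 _ (NN.mul_mem hν (NN.inv_mem a1))
        rw [inv_mul_cancel_right] at this
        rw [this, vecMul_vecMul, Prod.snd_inv, Units.mul_inv, vecMul_one, Prod.fst_inv, map_inv] }
  obtain ⟨j, hj⟩ : ∃ j, (x 1).2 j ≠ 0 := by
    have := (hx 1).1
    simp only [mul_one] at this
    exact Function.ne_iff.1 this
  have hjk : j ≠ j + 1 := (by decide : ∀ j : Fin 3, j ≠ j + 1) j
  have hK := mono_rel K el el_comm el_same atw (fun j l => lt (some (j, l, 0))) (fun _ => (1 : K2))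
    (atoms (wd v)) (fun a ha j l => by
      obtain ⟨i, hi, rfl⟩ := List.mem_map.1 ha
      have hi' := hocc i (List.mem_range.1 hi)
      have e1 : PresentedGroup.mk (FreeGroup.mk '' R2)
          (FreeGroup.mk (atw j l (i, (wd v).getD i 0))) =
          τ ^ i * ev R2 (lt (some (j, l, ub ((wd v).getD i 0)))) * (τ ^ i)⁻¹ := by
        change ev R2 _ = _
        rw [atw, ev_append, ev_append, ev_invRev, ev_tw]
      refine ⟨?_, fun ν hν => ?_⟩
      · rw [e1]; exact NN_normal.conj_mem _ (lt_mem _) _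
      · rw [e1, ← zt i, ← mul_assoc, inv_mul_cancel_right, ← mul_assoc]
        have h1 := (hx (ν * τ ^ i)).2.2.2.2 j l ((wd v).getD i 0)
        have h2 : (x (ν * τ ^ i)).1 = (x (ev R2 (tw i))).1 := by
          have := yN _ (NN_normal.conj_mem' ν hν (τ ^ i)) (τ ^ i)
          rw [ev_tw, ← this]
          congr 2
          group
        simp only [mul_one, h2, hi', if_true, zt] at h1
        exact h1)
    (fun j k => ⟨lt_mem _, fun ν _ => by
      have := (hx ν).2.2.2.1 j k
      simp only [mul_one] at this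
      exact this⟩) j (j + 1)
  obtain ⟨s, hs⟩ := evaln_complete.1 hv
  have hrel : ev R2 (patW j (j + 1) (wd v)) = 1 := by
    have := ev_rel (R := R2) (w := patRel ((j, j + 1), e, s)) (Or.inr (Or.inr ⟨_, rfl⟩))
    simpa [patRel, Option.mem_def.1 hs, hl] using this
  have h3 := hK.2 1 NN.one_mem
  change (x (1 * ev R2 (patW j (j + 1) (wd v)))).2 = _ at h3
  rw [hrel, mul_one] at h3
  have h4 := congrFun h3 (j + 1)
  simp only [List.map_const', List.prod_replicate, one_pow, vecMul_el hjk] at h4
  exact hj (by simpa using h4)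

theorem sft_of_local {G : Type} [Group G] {k : ℕ} (K : Finset G) (ok : (G → Fin k) → Prop)
    (hok : ∀ u u', (∀ h ∈ K, u h = u' h) → ok u → ok u') :
    IsSFT {x : G → Fin k | ∀ g, ok fun h => x (g * h)} := by
  refine ⟨{p | p.1 = K ∧ ∀ u : G → Fin k, (∀ h : p.1, u h = p.2 h) → ¬ ok u}, ?_, ?_⟩
  · refine (Set.finite_range fun q : K → Fin k => (⟨K, q⟩ : (K : Finset G) × (K → Fin k))).subset ?_
    rintro ⟨K', q⟩ ⟨h, -⟩
    dsimp only at h
    subst h
    exact ⟨q, rfl⟩
  · ext x
    refine ⟨fun hx p hp g h => hp.2 _ h (hx g), fun hx g => ?_⟩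
    by_contra hno
    exact hx ⟨K, fun h => x (g * h)⟩ ⟨rfl, fun u hu hu' => hno (hok _ _ (fun h hh => hu ⟨h, hh⟩) hu')⟩
      g fun _ => rfl

/-- Number of occurrences of the stable letter with a given sign. -/
noncomputable def cn (b : Bool) (w : Word rk) : ℕ := (w.filter fun a => a = (sg none, b)).length

theorem primrec_cn (b : Bool) : Primrec (cn b) :=
  Primrec.list_length.comp (Primrec.listFilter (p := fun a : Fin rk × Bool => a = (sg none, b))
    (Primrec.eq.comp Primrec.id (Primrec.const _)))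

theorem kappa_ev {y0 : ℤ → Fin 8} (hy : Avoids y0) (w : Word rk) :
    (rho hy (ev R2 w)).2.toAdd = (cn true w : ℤ) - cn false w := by
  induction w with
  | nil => simp [ev_nil, cn]
  | cons a w ih =>
    obtain ⟨i, b⟩ := a
    obtain ⟨g, rfl⟩ := sg.surjective i
    have e1 : ev R2 ((sg g, true) :: w) = ev R2 (lt g) * ev R2 w := ev_append R2 (lt g) w
    have e2 : ev R2 ((sg g, false) :: w) = (ev R2 (lt g))⁻¹ * ev R2 w := by
      rw [← ev_invRev]; exact ev_append R2 (FreeGroup.invRev (lt g)) w
    cases b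
    · rw [e2]
      rcases g with _ | s
      · simp [rho_lt, ff, ih, cn]; ring
      · simp [rho_lt, ff, EE, ih, cn]
    · rw [e1]
      rcases g with _ | s
      · simp [rho_lt, ff, ih, cn]; ring
      · simp [rho_lt, ff, EE, ih, cn]

theorem exists_good : ∃ p : ℕ → ℕ, ∀ e, p e < 4 ∧ ¬ Bad (e, p e) := by
  classical
  refine ⟨fun e => if Bad (e, 0) then 1 else 0, fun e => ?_⟩
  by_cases h : Bad (e, 0)
  · simp only [if_pos h]
    exact ⟨by omega, fun h' => by have := Bad_unique _ _ _ h h'; omega⟩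
  · simp only [if_neg h]
    exact ⟨by omega, h⟩

theorem main_sofic : ∃ (r : ℕ) (R : Set (Word r)), REPred (· ∈ R) ∧ Infinite (Grp R) ∧
    ∃ (l : ℕ) (Y : Set (Grp R → Fin l)), IsSofic Y ∧ Y.Nonempty ∧
      ∀ e : ℕ → Word r, Computable e → Function.Surjective e →
        ∀ (k : ℕ) (X : Set (Grp R → Fin k)), IsSFT X → ¬ MedEquiv (hat R e X) (hat R e Y) := by
  classical
  obtain ⟨p0, hp0⟩ := exists_good
  have hy0 := ymod_avoids hp0
  let κ : Grp R2 →* Multiplicative ℤ := (MonoidHom.snd _ _).comp (rho hy0)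
  let τ := ev R2 (lt none)
  have hτ : κ τ = Multiplicative.ofAdd 1 := by simp [κ, τ, rho_lt, ff]
  let η := Fintype.equivFin (Fin 8 × (Fin 3 → K2))
  let X0 : Set (Grp R2 → Fin (Fintype.card (Fin 8 × (Fin 3 → K2)))) :=
    {x | ∀ g, Ok fun h => η.symm (x (g * h))}
  let φ : (Grp R2 → Fin (Fintype.card (Fin 8 × (Fin 3 → K2)))) → Grp R2 → Fin 8 :=
    fun x g => (η.symm (x g)).1
  have hmem : ∀ {y0 : ℤ → Fin 8} (hy : Avoids y0), (fun g => y0 (rho hy g).2.toAdd) ∈ φ '' X0 := by
    intro y0 hy
    obtain ⟨z, hz⟩ := exists_cover hy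
    refine ⟨fun g => η (y0 (rho hy g).2.toAdd, z g), fun g => ?_, ?_⟩
    · simpa using hz g
    · funext g; simp [φ]
  refine ⟨rk, R2, re_R2, ?_, 8, φ '' X0, ⟨_, X0, φ, ?_, ?_, fun _ _ _ => rfl, rfl⟩, ⟨_, hmem hy0⟩,
    ?_⟩
  · refine Infinite.of_injective (fun n : ℤ => τ ^ n) fun m n h => ?_
    have := congrArg (fun g => (κ g).toAdd) h
    simpa [hτ] using this
  · refine sft_of_local (insert 1 (Finset.univ.image fun g : Gen => ev R2 (lt g)))
      (fun u => Ok fun h => η.symm (u h)) fun u u' h hu => ?_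
    have h1 : u 1 = u' 1 := h 1 (by simp)
    have h2 : ∀ g, u (ev R2 (lt g)) = u' (ev R2 (lt g)) := fun g => h _ (by simp)
    simpa only [Ok, h1, h2] using hu
  · exact (continuous_pi fun g => (continuous_of_discreteTopology
      (f := fun a => (η.symm a).1)).comp (continuous_apply g)).continuousOn
  · rintro e he hs k X hX ⟨h1, h2⟩
    have cP : Computable fun j => cn true (e j) := (primrec_cn true).to_comp.comp he
    have cM : Computable fun j => cn false (e j) := (primrec_cn false).to_comp.comp he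
    by_cases h : ∀ x ∈ X, ∃ u g, g ≠ none ∧ x (ev R2 (u ++ lt g)) ≠ x (ev R2 u)
    · have hH := (hard_of_noninv R2 he hs (fun g => g ≠ none) (fun g hg n s => by
        rcases g with _ | g
        · exact absurd rfl hg
        · exact Or.inl ⟨(g, n, s), rfl⟩) X h).medLE h1
      have cPM : Computable fun j => (cn true (e j), cn false (e j)) := cP.pair cM
      have a0 : Computable fun j => lev ((cn true (e j) : ℤ) - cn false (e j)) :=
        (comp_lev.comp cPM).of_eq fun _ => rfl
      refine not_hard Bad re_Bad Bad_unique (hH.tt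
        (use := fun j => lev ((cn true (e j) : ℤ) - cn false (e j)))
        (out := fun z => (4 * s0 ((cn true (e z.1) : ℤ) - cn false (e z.1)) + z.2) % 8)
        a0 ?_ fun p hp => ?_)
      · have a1 : Computable fun j => s0 ((cn true (e j) : ℤ) - cn false (e j)) :=
          (comp_s0.comp cPM).of_eq fun _ => rfl
        have a2 : Computable fun z : ℕ × ℕ => 4 * s0 ((cn true (e z.1) : ℤ) - cn false (e z.1)) :=
          Primrec.nat_mul.to_comp.comp (Computable.const 4) (a1.comp Computable.fst)
        exact Primrec.nat_mod.to_comp.comp (Primrec.nat_add.to_comp.comp a2 Computable.snd)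
          (Computable.const 8)
      · refine ⟨_, hmem (ymod_avoids hp), funext fun j => ?_⟩
        simp only [kappa_ev, ymod]
    · push Not at h
      obtain ⟨x, hx, hinv⟩ := h
      have hN := inv_of_gens x (fun g => g ≠ none) hinv
      have hq : (QuotientGroup.mk' NN : Grp R2 →* Grp R2 ⧸ NN) =
          (zpowersHom _ (QuotientGroup.mk' NN τ)).comp κ := by
        refine PresentedGroup.ext fun i => ?_
        rw [of_eq_ev]
        rcases sg.symm i with _ | s
        · change QuotientGroup.mk' NN τ = QuotientGroup.mk' NN τ ^ (κ τ).toAdd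
          simp [hτ]
        · have : κ (ev R2 (lt (some s))) = 1 := by simp [κ, rho_lt, ff, EE]
          simp only [MonoidHom.comp_apply, this, map_one, QuotientGroup.mk'_apply,
            QuotientGroup.eq_one_iff]
          exact lt_mem s
      have hxe : x = fun g => (fun i : ℤ => x (τ ^ i)) (κ g).toAdd := by
        funext g
        have a1 : QuotientGroup.mk' NN (τ ^ (κ g).toAdd) = QuotientGroup.mk' NN g := by
          rw [map_zpow]
          conv_rhs => rw [hq]
          rfl
        have a2 : (τ ^ (κ g).toAdd)⁻¹ * g ∈ NN := QuotientGroup.eq.1 a1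
        have := hN _ a2 (τ ^ (κ g).toAdd)
        rwa [mul_inv_cancel_left] at this
      obtain ⟨p, z0, hp, hper, hz⟩ := periodic_point κ τ hτ hX (fun i : ℤ => x (τ ^ i)) (hxe ▸ hx)
      have hc : Computable fun n => (z0 (κ (ev R2 (e n))).toAdd).val := by
        have a1 : Computable fun n => (cn true (e n) + (p - 1) * cn false (e n)) % p :=
          Primrec.nat_mod.to_comp.comp (Primrec.nat_add.to_comp.comp cP
            (Primrec.nat_mul.to_comp.comp (Computable.const (p - 1)) cM)) (Computable.const p)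
        have a2 := (Primrec.list_getD 0).to_comp.comp
          (Computable.const (pre (fun i : ℕ => (z0 i).val) p)) a1
        refine a2.of_eq fun n => ?_
        rw [pre_getD _ (Nat.mod_lt _ hp)]
        have a3 : (κ (ev R2 (e n))).toAdd = (cn true (e n) : ℤ) - cn false (e n) := kappa_ev hy0 _
        rw [a3]
        generalize cn true (e n) = P
        generalize cn false (e n) = M
        rw [← hper _ (((P + (p - 1) * M) / p : ℕ) - M)]
        congr 2
        obtain ⟨p, rfl⟩ := Nat.exists_eq_add_of_lt hp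
        have := Nat.mod_add_div (P + (0 + p + 1 - 1) * M) (0 + p + 1)
        simp only [zero_add, add_tsub_cancel_right] at this ⊢
        zify at this
        push_cast
        linear_combination this
      obtain ⟨y, ⟨_, ⟨x1, hx1, rfl⟩, rfl⟩, hyc⟩ := h2.computable ⟨_, hz, rfl⟩ hc
      obtain ⟨idx, hidx, hi⟩ := exists_idx he hs
      have b1 : Computable fun i => (φ x1 (ev R2 (tw i))).val :=
        (hyc.comp (hidx.comp primrec_tw.to_comp)).of_eq fun i => by simp only [hi]
      have b2 : Computable fun n =>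
          Encodable.encode (pre (fun i => (φ x1 (ev R2 (tw i))).val) (2 ^ (n + 3))) :=
        Computable.encode.comp ((comp_pre b1).comp
          (primrec_two_pow.comp (Primrec.nat_add.comp Primrec.id (Primrec.const 3))).to_comp)
      obtain ⟨n, hn⟩ := exists_diag b2
      refine sound (x := fun g => η.symm (x1 g)) hx1 hn (by simp [wd]) fun i hi' => ?_
      simp only [wd, Encodable.encodek, Option.getD_some, pre_length] at hi' ⊢
      rw [pre_getD _ hi', Nat.mod_eq_of_lt (Fin.is_lt _)]

end Pool.Agent.H49Z.Med
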