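import Pool.Agent.H49Z.Med.Defs

/-!
Closure properties of recursively enumerable predicates.
-/

set_option autoImplicit false

namespace Pool.Agent.H49Z.Med

open Encodable Nat.Partrec Nat.Partrec.Code

variable {α β γ : Type} [Primcodable α] [Primcodable β] [Primcodable γ]

theorem cpred_comp {p : β → Prop} {f : α → β} (hp : ComputablePred p) (hf : Computable f) :
    ComputablePred fun a => p (f a) := by
  obtain ⟨d, hd⟩ := hp
  exact ⟨fun a => d (f a), hd.comp hf⟩

theorem ppred_comp {p : β → Prop} {f : α → β} (hp : PrimrecPred p) (hf : Computable f) :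
    ComputablePred fun a => p (f a) := cpred_comp hp.computablePred hf

theorem re_comp {p : β → Prop} {f : α → β} (hp : REPred p) (hf : Computable f) :
    REPred fun a => p (f a) := Partrec.comp hp hf

theorem re_of_ppred {p : β → Prop} {f : α → β} (hp : PrimrecPred p) (hf : Computable f) :
    REPred fun a => p (f a) := (ppred_comp hp hf).to_re

theorem cpred_lt {f g : α → ℕ} (hf : Computable f) (hg : Computable g) :
    ComputablePred fun a => f a < g a :=
  ppred_comp (p := fun z : ℕ × ℕ => z.1 < z.2) (f := fun a => (f a, g a)) Primrec.nat_lt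
    (hf.pair hg)

theorem cpred_le {f g : α → ℕ} (hf : Computable f) (hg : Computable g) :
    ComputablePred fun a => f a ≤ g a :=
  ppred_comp (p := fun z : ℕ × ℕ => z.1 ≤ z.2) (f := fun a => (f a, g a)) Primrec.nat_le
    (hf.pair hg)

theorem cpred_eq {f g : α → β} (hf : Computable f) (hg : Computable g) :
    ComputablePred fun a => f a = g a :=
  ppred_comp (p := fun z : β × β => z.1 = z.2) (f := fun a => (f a, g a)) Primrec.eq
    (hf.pair hg)

theorem re_lt {f g : α → ℕ} (hf : Computable f) (hg : Computable g) :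
    REPred fun a => f a < g a := (cpred_lt hf hg).to_re

theorem re_le {f g : α → ℕ} (hf : Computable f) (hg : Computable g) :
    REPred fun a => f a ≤ g a := (cpred_le hf hg).to_re

theorem re_eq {f g : α → β} (hf : Computable f) (hg : Computable g) :
    REPred fun a => f a = g a := (cpred_eq hf hg).to_re

theorem re_ne {f g : α → β} (hf : Computable f) (hg : Computable g) :
    REPred fun a => f a ≠ g a := (cpred_eq hf hg).not.to_re

theorem re_of_exists_nat {q : α × ℕ → Prop} (hq : ComputablePred q) :
    REPred fun a => ∃ k, q (a, k) := by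
  classical
  have h : Partrec (fun x : α ↦ Nat.rfind fun n => Part.some (decide (q (x, n)))) :=
    Partrec.rfind (hq.decide.partrec)
  refine h.dom_re.of_eq fun a => ?_
  simp [Nat.rfind_dom]

theorem re_normal {p : α → Prop} (hp : REPred p) :
    ∃ q : α × ℕ → Prop, PrimrecPred q ∧ ∀ a, p a ↔ ∃ k, q (a, k) := by
  obtain ⟨c, hc⟩ := exists_code.1 hp
  refine ⟨fun x => (evaln x.2 c (encode x.1)).isSome = true, ?_, fun a => ?_⟩
  · exact Primrec.eq.comp (Primrec.option_isSome.comp (primrec_evaln.comp
      ((Primrec.snd.pair (Primrec.const c)).pair (Primrec.encode.comp Primrec.fst))))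
      (Primrec.const true)
  · have h1 : p a ↔ (eval c (encode a)).Dom := by
      rw [hc]; simp [Part.dom_iff_mem]
    rw [h1, Part.dom_iff_mem]
    constructor
    · rintro ⟨y, hy⟩
      obtain ⟨k, hk⟩ := evaln_complete.1 hy
      exact ⟨k, by simp only [Option.mem_def.1 hk, Option.isSome_some]⟩
    · rintro ⟨k, hk⟩
      obtain ⟨y, hy⟩ := Option.isSome_iff_exists.1 hk
      exact ⟨y, evaln_sound hy⟩

theorem ppred_decode {q : α × β → Prop} (hq : PrimrecPred q) :
    PrimrecPred fun x : α × ℕ => ∃ b, (decode x.2 : Option β) = some b ∧ q (x.1, b) := by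
  classical
  have h : Primrec fun x : α × ℕ =>
      ((decode x.2 : Option β).map fun b => decide (q (x.1, b))) :=
    Primrec.option_map (Primrec.decode.comp Primrec.snd)
      (hq.decide.comp ((Primrec.fst.comp Primrec.fst).pair Primrec.snd)).to₂
  refine (Primrec.eq.comp h (Primrec.const (some true))).of_eq fun x => ?_
  cases (decode x.2 : Option β) <;> simp

theorem re_exists {p : α × β → Prop} (hp : REPred p) : REPred fun a => ∃ b, p (a, b) := by
  obtain ⟨q, hq, h⟩ := re_normal hp
  have hq' : PrimrecPred fun x : α × (β × ℕ) => q ((x.1, x.2.1), x.2.2) :=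
    hq.comp ((Primrec.fst.pair (Primrec.fst.comp Primrec.snd)).pair (Primrec.snd.comp Primrec.snd))
  refine (re_of_exists_nat (ppred_decode hq').computablePred).of_eq fun a => ?_
  constructor
  · rintro ⟨k, b, -, hb⟩
    exact ⟨b.1, (h _).2 ⟨b.2, hb⟩⟩
  · rintro ⟨b, hb⟩
    obtain ⟨k, hk⟩ := (h _).1 hb
    exact ⟨encode (b, k), (b, k), encodek _, hk⟩

theorem re_and {p q : α → Prop} (hp : REPred p) (hq : REPred q) : REPred fun a => p a ∧ q a := by
  obtain ⟨p', hp', h1⟩ := re_normal hp
  obtain ⟨q', hq', h2⟩ := re_normal hq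
  have : PrimrecPred fun x : α × (ℕ × ℕ) => p' (x.1, x.2.1) ∧ q' (x.1, x.2.2) :=
    (hp'.comp (Primrec.fst.pair (Primrec.fst.comp Primrec.snd))).and
      (hq'.comp (Primrec.fst.pair (Primrec.snd.comp Primrec.snd)))
  refine (re_exists this.computablePred.to_re).of_eq fun a => ?_
  simp [h1, h2]

theorem re_or {p q : α → Prop} (hp : REPred p) (hq : REPred q) : REPred fun a => p a ∨ q a := by
  obtain ⟨p', hp', h1⟩ := re_normal hp
  obtain ⟨q', hq', h2⟩ := re_normal hq
  refine (re_of_exists_nat (hp'.or hq').computablePred).of_eq fun a => ?_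
  simp [h1, h2, exists_or]

theorem ppred_exists_lt {q : α × ℕ → Prop} {m : α → ℕ} (hq : PrimrecPred q) (hm : Primrec m) :
    PrimrecPred fun a => ∃ k < m a, q (a, k) := by
  have h1 : PrimrecRel fun (k : ℕ) (y : α) => q (y, k) :=
    (hq.comp (Primrec.snd.pair Primrec.fst)).primrecRel
  exact (h1.exists_mem_list.comp (Primrec.list_range.comp hm) Primrec.id).of_eq (by simp)

theorem ppred_forall_lt {q : α × ℕ → Prop} {m : α → ℕ} (hq : PrimrecPred q) (hm : Primrec m) :
    PrimrecPred fun a => ∀ k < m a, q (a, k) := by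
  have h1 : PrimrecRel fun (k : ℕ) (y : α) => q (y, k) :=
    (hq.comp (Primrec.snd.pair Primrec.fst)).primrecRel
  exact (h1.forall_mem_list.comp (Primrec.list_range.comp hm) Primrec.id).of_eq (by simp)

theorem re_forall_mem {p : α × β → Prop} {l : α → List β} (hp : REPred p) (hl : Computable l) :
    REPred fun a => ∀ b ∈ l a, p (a, b) := by
  obtain ⟨q, hq, h⟩ := re_normal hp
  have h2' : PrimrecPred fun z : β × (α × ℕ) => ∃ k < z.2.2, q ((z.2.1, z.1), k) :=
    ppred_exists_lt (q := fun w : (β × (α × ℕ)) × ℕ => q ((w.1.2.1, w.1.1), w.2))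
      (hq.comp (((Primrec.fst.comp (Primrec.snd.comp Primrec.fst)).pair
        (Primrec.fst.comp Primrec.fst)).pair Primrec.snd)) (Primrec.snd.comp Primrec.snd)
  have h2 : PrimrecRel fun (b : β) (y : α × ℕ) => ∃ k < y.2, q ((y.1, b), k) := h2'
  have h3 : ComputablePred fun x : α × ℕ => ∀ b ∈ l x.1, ∃ k < x.2, q ((x.1, b), k) :=
    ppred_comp (p := fun z : List β × (α × ℕ) => ∀ b ∈ z.1, ∃ k < z.2.2, q ((z.2.1, b), k))
      h2.forall_mem_list ((hl.comp Computable.fst).pair Computable.id)
  refine (re_of_exists_nat h3).of_eq fun a => ?_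
  constructor
  · rintro ⟨K, hK⟩ b hb
    obtain ⟨k, -, hk⟩ := hK b hb
    exact (h _).2 ⟨k, hk⟩
  · intro H
    have : ∀ L : List β, (∀ b ∈ L, p (a, b)) → ∃ K, ∀ b ∈ L, ∃ k < K, q ((a, b), k) := by
      intro L
      induction L with
      | nil => intro _; exact ⟨0, by simp⟩
      | cons b L ih =>
        intro hL
        obtain ⟨K, hK⟩ := ih fun c hc => hL c (List.mem_cons_of_mem _ hc)
        obtain ⟨k, hk⟩ := (h _).1 (hL b List.mem_cons_self)
        refine ⟨max K (k + 1), fun c hc => ?_⟩
        rcases List.mem_cons.1 hc with rfl | hc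
        · exact ⟨k, by omega, hk⟩
        · obtain ⟨k', h1, h2⟩ := hK c hc
          exact ⟨k', by omega, h2⟩
    exact this _ H

theorem re_uniformize {p : α × β → Prop} (hp : REPred p) (ht : ∀ a, ∃ b, p (a, b)) :
    ∃ f : α → β, Computable f ∧ ∀ a, p (a, f a) := by
  classical
  obtain ⟨q, hq, h⟩ := re_normal hp
  have hq' : PrimrecPred fun x : α × (β × ℕ) => q ((x.1, x.2.1), x.2.2) :=
    hq.comp ((Primrec.fst.pair (Primrec.fst.comp Primrec.snd)).pair (Primrec.snd.comp Primrec.snd))
  have hex : ∀ a : α, ∃ n : ℕ, ∃ b : β × ℕ, (decode n : Option (β × ℕ)) = some b ∧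
      q ((a, b.1), b.2) := by
    intro a
    obtain ⟨b, hb⟩ := ht a
    obtain ⟨k, hk⟩ := (h _).1 hb
    exact ⟨encode (b, k), (b, k), encodek _, hk⟩
  have hf : Computable fun a => Nat.find (hex a) :=
    Computable.find (P := fun a n => ∃ b : β × ℕ, (decode n : Option (β × ℕ)) = some b ∧
      q ((a, b.1), b.2)) (ppred_decode hq').computablePred hex
  have hg : Computable fun a => ((decode (Nat.find (hex a)) : Option (β × ℕ)).map Prod.fst) :=
    Computable.option_map (Computable.decode.comp hf) (Computable.fst.comp Computable.snd).to₂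
  refine ⟨fun a => (Classical.choose (Nat.find_spec (hex a))).1, ?_, fun a => ?_⟩
  · refine Computable.option_some_iff.1 (hg.of_eq fun a => ?_)
    exact congrArg (Option.map Prod.fst) (Classical.choose_spec (Nat.find_spec (hex a))).1
  · exact (h _).2 ⟨_, (Classical.choose_spec (Nat.find_spec (hex a))).2⟩

theorem re_range {f : β → α} (hf : Computable f) : REPred fun a => a ∈ Set.range f := by
  have : REPred fun x : α × β => f x.2 = x.1 :=
    re_of_ppred (p := fun z : α × α => z.1 = z.2) Primrec.eq
      ((hf.comp Computable.snd).pair Computable.fst)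
  exact (re_exists this).of_eq fun a => Iff.rfl

theorem comp_map_range {g : α × ℕ → β} {m : α → ℕ} (hg : Computable g) (hm : Computable m) :
    Computable fun a => (List.range (m a)).map fun j => g (a, j) := by
  have h := Computable.nat_rec (σ := List β) hm (Computable.const [])
    (h := fun a (x : ℕ × List β) => x.2 ++ [g (a, x.1)])
    (Computable.list_concat.comp (Computable.snd.comp Computable.snd)
      (hg.comp (Computable.fst.pair (Computable.fst.comp Computable.snd)))).to₂
  refine h.of_eq fun a => ?_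
  induction m a with
  | zero => rfl
  | succ n ih => simp [List.range_succ, ih]

theorem comp_pre {y : ℕ → ℕ} (hy : Computable y) : Computable (pre y) :=
  comp_map_range (g := fun x : ℕ × ℕ => y x.2) (hy.comp Computable.snd) Computable.id

/-- The diagonal partial function. -/
def dg (n : ℕ) : Part ℕ := eval (Denumerable.ofNat Code n) n

theorem re_dg : REPred fun x : ℕ × ℕ => x.2 ∈ dg x.1 := by
  have : PrimrecPred fun x : (ℕ × ℕ) × ℕ =>
      evaln x.2 (Denumerable.ofNat Code x.1.1) x.1.1 = some x.1.2 :=
    Primrec.eq.comp (primrec_evaln.comp ((Primrec.snd.pair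
      ((Primrec.ofNat Code).comp (Primrec.fst.comp Primrec.fst))).pair
      (Primrec.fst.comp Primrec.fst))) (Primrec.option_some.comp (Primrec.snd.comp Primrec.fst))
  refine (re_of_exists_nat this.computablePred).of_eq fun x => ?_
  unfold dg
  rw [evaln_complete]; rfl

theorem exists_diag {k : ℕ → ℕ} (hk : Computable k) : ∃ n, k n ∈ dg n := by
  obtain ⟨c, hc⟩ := exists_code.1 (Partrec.nat_iff.1 hk.partrec)
  refine ⟨encode c, ?_⟩
  unfold dg
  rw [Denumerable.ofNat_encode, hc]; simp

theorem exists_idx {e : ℕ → α} (he : Computable e) (hs : Function.Surjective e) :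
    ∃ idx : α → ℕ, Computable idx ∧ ∀ a, e (idx a) = a :=
  re_uniformize (p := fun x : α × ℕ => e x.2 = x.1)
    (re_of_ppred (p := fun z : α × α => z.1 = z.2) Primrec.eq
      ((he.comp Computable.snd).pair Computable.fst)) hs

end Pool.Agent.H49Z.Med
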