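import Pool.Agent.H49Z.Med.Grp

/-!
The concrete ring of operators and the first main theorem.
-/

set_option autoImplicit false

namespace Pool.Agent.H49Z.Med

open Matrix Nat.Partrec.Code
open Nat.Partrec (Code)
open scoped commutatorElement

/-- The module the operators act on. -/
abbrev V (K : Type) : Type := ℤ × List Bool → K

/-- Number of leading `true`s. -/
def cnt : List Bool → ℕ
  | true :: l => cnt l + 1
  | _ => 0

theorem cnt_rep (n : ℕ) (l : List Bool) : cnt (List.replicate n true ++ false :: l) = n := by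
  induction n with
  | zero => rfl
  | succ n ih => simp [List.replicate_succ, cnt, ih]

variable (K : Type) [CommRing K]

/-- Precomposition operators. -/
def pull (f : ℤ × List Bool → ℤ × List Bool) : Module.End K (V K) := LinearMap.funLeft K K f

/-- Multiplication operators. -/
def mulf (h : V K) : Module.End K (V K) := LinearMap.mulLeft K h

@[simp] theorem pull_apply (f : ℤ × List Bool → ℤ × List Bool) (v : V K) (p : ℤ × List Bool) :
    pull K f v p = v (f p) := rfl

@[simp] theorem mulf_apply (h v : V K) (p : ℤ × List Bool) : mulf K h v p = h p * v p := rfl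

open Classical in
/-- The ring generators. -/
noncomputable def val (y0 : ℤ → Fin 8) (x : Fin 15) : Module.End K (V K) :=
  if x = 0 then 1
  else if x = 1 then pull K fun p => (p.1, false :: p.2)
  else if x = 2 then pull K fun p => (p.1, true :: p.2)
  else if x = 3 then pull K fun p => (p.1, p.2.tail)
  else if x = 4 then mulf K fun p => if 1 ∈ dg (cnt p.2) then 1 else 0
  else if x = 5 then pull K fun p => (p.1 + 1, p.2)
  else if x = 6 then pull K fun p => (p.1 - 1, p.2)
  else mulf K fun p => if (y0 p.1).val + 7 = x.val then 1 else 0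

theorem val_zero (y0 : ℤ → Fin 8) : val K y0 0 = 1 := by simp [val]

theorem val_two_pow (y0 : ℤ → Fin 8) (n : ℕ) (v : V K) (i : ℤ) (l : List Bool) :
    (val K y0 2 ^ n) v (i, l) = v (i, List.replicate n true ++ l) := by
  induction n generalizing v with
  | zero => simp
  | succ n ih =>
    rw [pow_succ, Module.End.mul_apply, ih]
    simp [val, List.replicate_succ]

theorem val_three_pow (y0 : ℤ → Fin 8) (n : ℕ) (v : V K) (i : ℤ) (l : List Bool) :
    (val K y0 3 ^ n) v (i, l) = v (i, l.drop n) := by
  induction n generalizing v with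
  | zero => simp
  | succ n ih =>
    rw [pow_succ, Module.End.mul_apply, ih]
    simp [val]

open Classical in
theorem val_cond (y0 : ℤ → Fin 8) (x : Fin 15) (n : ℕ) :
    ((condL x n).map (val K y0)).prod = if 1 ∈ dg n then val K y0 x else 0 := by
  have h : val K y0 1 * (val K y0 2 ^ n * (val K y0 4 * val K y0 3 ^ (n + 1))) =
      if 1 ∈ dg n then 1 else 0 := by
    ext v ⟨i, l⟩
    have h1 : ∀ w : V K, val K y0 1 w (i, l) = w (i, false :: l) := fun w => by simp [val]
    have h4 : ∀ (w : V K) p, val K y0 4 w p = (if 1 ∈ dg (cnt p.2) then 1 else 0) * w p :=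
      fun w p => by simp [val]
    simp only [Module.End.mul_apply, h1, val_two_pow, h4, cnt_rep, val_three_pow]
    have : List.drop (n + 1) (List.replicate n true ++ false :: l) = l := by
      rw [show List.replicate n true ++ false :: l = (List.replicate n true ++ [false]) ++ l by simp]
      exact List.drop_left' (by simp)
    rw [this]
    split_ifs <;> simp
  simp only [condL, List.map_cons, List.map_append, List.map_replicate, List.prod_cons,
    List.prod_append, List.prod_replicate, h]
  split_ifs <;> simp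

/-- A homomorphism from the free group given by the images of the named generators. -/
noncomputable def model {H : Type} [Group H] (f : Gen → H) : FreeGroup (Fin rk) →* H :=
  FreeGroup.lift fun i => f (sg.symm i)

theorem model_lt {H : Type} [Group H] (f : Gen → H) (g : Gen) :
    model f (FreeGroup.mk (lt g)) = f g := by
  simp [model, lt]

theorem model_W {H : Type} [Group H] (y0 : ℤ → Fin 8) (E : Fin 3 → Fin 3 → Module.End K (V K) → H)
    (hE : ∀ j l k, j ≠ l → l ≠ k → j ≠ k → ∀ x y, ⁅E j l x, E l k y⁆ = E j k (x * y))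
    (hE0 : ∀ j x, E j j x = 1) (hz : ∀ j k, E j k 0 = 1) (f : Gen → H)
    (hf : ∀ j k x, f (some (j, k, x)) = E j k (val K y0 x)) (j k : Fin 3) (x : Fin 15) (n s : ℕ) :
    model f (FreeGroup.mk (condRel (some (j, k, x), n, s))) = 1 := by
  have h : ∀ n, model f (FreeGroup.mk (W (some (j, k, x)) n)) =
      E j k ((condL x n).map (val K y0)).prod := fun n =>
    mono0_hom (model f) E hE hE0 (val K y0) (val_zero K y0)
      (fun j k x => by rw [model_lt, hf]) j k _
  refine condRel_hom _ (fun n hn => ?_) (fun n hn => ?_) n s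
  · rw [h, val_cond, if_neg hn, hz]
  · rw [h, val_cond, if_pos hn, model_lt, hf]

theorem inv_of_gens {R : Set (Word rk)} {A : Type} (x : Grp R → A) (S0 : Gen → Prop)
    (h : ∀ u g, S0 g → x (ev R (u ++ lt g)) = x (ev R u)) :
    ∀ ν ∈ Subgroup.closure {a | ∃ g, S0 g ∧ a = ev R (lt g)}, ∀ a, x (a * ν) = x a := by
  intro ν hν
  induction hν using Subgroup.closure_induction with
  | mem b hb =>
    obtain ⟨g, hg, rfl⟩ := hb
    intro a
    obtain ⟨u, rfl⟩ := ev_surj R a
    rw [← ev_append, h u g hg]
  | one => simp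
  | mul b c _ _ hb hc => intro a; rw [← mul_assoc, hc, hb]
  | inv b _ hb => intro a; rw [← hb (a * b⁻¹)]; simp

/-- The four-valued diagonally noncomputable functions, coded in binary. -/
def P2 : Set (ℕ → ℕ) := {x | (∀ n, x n ≤ 1) ∧ ∀ e, 2 * x (2 * e) + x (2 * e + 1) ∉ dg e}

theorem P2_pi01 : IsPi01 P2 := by
  classical
  let q : List ℕ → Prop := fun σ => 2 * (Nat.unpair σ.length).1 + 1 < σ.length ∧
    evaln (Nat.unpair σ.length).2 (Denumerable.ofNat Code (Nat.unpair σ.length).1)
      (Nat.unpair σ.length).1 = some (2 * σ.getD (2 * (Nat.unpair σ.length).1) 0 +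
        σ.getD (2 * (Nat.unpair σ.length).1 + 1) 0)
  have he : Primrec fun σ : List ℕ => (Nat.unpair σ.length).1 :=
    Primrec.fst.comp (Primrec.unpair.comp Primrec.list_length)
  have hs : Primrec fun σ : List ℕ => (Nat.unpair σ.length).2 :=
    Primrec.snd.comp (Primrec.unpair.comp Primrec.list_length)
  have h2 : Primrec fun σ : List ℕ => 2 * (Nat.unpair σ.length).1 := Primrec.nat_double.comp he
  have h3 : Primrec fun σ : List ℕ => 2 * (Nat.unpair σ.length).1 + 1 := Primrec.succ.comp h2
  have h4 : Primrec fun σ : List ℕ => σ.getD (2 * (Nat.unpair σ.length).1) 0 :=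
    (Primrec.list_getD 0).comp Primrec.id h2
  have h5 : Primrec fun σ : List ℕ => σ.getD (2 * (Nat.unpair σ.length).1 + 1) 0 :=
    (Primrec.list_getD 0).comp Primrec.id h3
  have h6 : Primrec fun σ : List ℕ => evaln (Nat.unpair σ.length).2
      (Denumerable.ofNat Code (Nat.unpair σ.length).1) (Nat.unpair σ.length).1 :=
    primrec_evaln.comp ((hs.pair ((Primrec.ofNat Code).comp he)).pair he)
  have h7 : Primrec fun σ : List ℕ => some (2 * σ.getD (2 * (Nat.unpair σ.length).1) 0 +
        σ.getD (2 * (Nat.unpair σ.length).1 + 1) 0) :=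
    Primrec.option_some.comp (Primrec.nat_add.comp (Primrec.nat_double.comp h4) h5)
  have hq : PrimrecPred q :=
    (Primrec.nat_lt.comp h3 Primrec.list_length).and (Primrec.eq.comp h6 h7)
  refine ⟨fun σ => decide (¬ q σ), hq.not.decide.to_comp, ?_⟩
  ext x
  simp only [P2, Set.mem_ofPred_eq, decide_eq_true_eq]
  refine and_congr_right fun _ => ⟨fun h m hm => ?_, fun h e he => ?_⟩
  · obtain ⟨a, b⟩ := hm
    simp only [pre_length] at a b
    rw [pre_getD x (by omega), pre_getD x a] at b
    exact h _ (evaln_sound b)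
  · obtain ⟨s, hs⟩ := evaln_complete.1 he
    have hl : 2 * e + 1 < Nat.pair e (s + 2 * e + 2) :=
      lt_of_lt_of_le (by omega) (Nat.right_le_pair e (s + 2 * e + 2))
    refine h (Nat.pair e (s + 2 * e + 2)) ⟨?_, ?_⟩
    · simpa using hl
    · simp only [pre_length, Nat.unpair_pair]
      rw [pre_getD x (by omega), pre_getD x hl]
      exact evaln_mono (by omega) hs

theorem P2_nonempty : P2.Nonempty := by
  classical
  refine ⟨fun j => if j % 2 = 1 ∧ 0 ∈ dg (j / 2) then 1 else 0, fun n => ?_, fun e he => ?_⟩
  · dsimp only; split_ifs <;> omega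
  · have h1 : (2 * e) % 2 ≠ 1 := by omega
    have h2 : (2 * e + 1) % 2 = 1 := by omega
    have h3 : (2 * e + 1) / 2 = e := by omega
    simp only [h1, h2, h3, false_and, if_false, true_and] at he
    by_cases h : 0 ∈ dg e
    · rw [if_pos h] at he
      have := Part.mem_unique h he
      omega
    · rw [if_neg h] at he
      exact h he

theorem P2_not_computable {x : ℕ → ℕ} (hx : x ∈ P2) : ¬ Computable x := by
  intro hc
  have h1 : Computable fun e => x (2 * e) := hc.comp Primrec.nat_double.to_comp
  have h2 : Computable fun e => x (2 * e + 1) := hc.comp Primrec.nat_double_succ.to_comp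
  have h3 : Computable fun e => 2 * x (2 * e) + x (2 * e + 1) :=
    Primrec.nat_add.to_comp.comp (Primrec.nat_double.to_comp.comp h1) h2
  obtain ⟨n, hn⟩ := exists_diag h3
  exact hx.2 n hn

theorem P2_not_hard : ¬ Hard P2 := by
  intro h
  refine not_hard (fun z => z.2 ∈ dg z.1) re_dg (fun e d d' a b => Part.mem_unique a b) ?_
  have ho : Primrec fun z : ℕ × ℕ => if z.1 % 2 = 0 then z.2 / 2 else z.2 % 2 :=
    Primrec.ite (Primrec.eq.comp (Primrec.nat_mod.comp Primrec.fst (Primrec.const 2))
      (Primrec.const 0)) (Primrec.nat_div.comp Primrec.snd (Primrec.const 2))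
      (Primrec.nat_mod.comp Primrec.snd (Primrec.const 2))
  refine h.tt (use := fun j => j / 2) (Primrec.nat_div.comp Primrec.id (Primrec.const 2)).to_comp
    ho.to_comp fun p hp => ⟨fun n => ?_, fun e he => ?_⟩
  · have := (hp (n / 2)).1
    dsimp only; split_ifs <;> omega
  · have h1 : (2 * e) % 2 = 0 := by omega
    have h2 : (2 * e + 1) % 2 ≠ 0 := by omega
    have h3 : (2 * e + 1) / 2 = e := by omega
    have h4 : (2 * e) / 2 = e := by omega
    simp only [h1, h2, h3, h4, if_true, if_false] at he
    rw [Nat.div_add_mod] at he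
    exact (hp e).2 he

theorem main_eff : ∃ (r : ℕ) (R : Set (Word r)), REPred (· ∈ R) ∧ Infinite (Grp R) ∧
    ∃ P : Set (ℕ → ℕ), IsPi01 P ∧ P.Nonempty ∧
      ∀ e : ℕ → Word r, Computable e → Function.Surjective e →
        ∀ (k : ℕ) (X : Set (Grp R → Fin k)), ¬ MedEquiv (hat R e X) P := by
  refine ⟨rk, Set.range condRel, re_range primrec_condRel.to_comp, ?_, P2, P2_pi01, P2_nonempty,
    ?_⟩
  · let f : Gen → (Matrix (Fin 3) (Fin 3) (Module.End ℤ (V ℤ)))ˣ := fun g =>
      g.elim 1 fun a => el a.1 a.2.1 (val ℤ (fun _ => 0) a.2.2)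
    have hrel : ∀ w ∈ FreeGroup.mk '' Set.range condRel,
        FreeGroup.lift (fun i => f (sg.symm i)) w = 1 := by
      rintro _ ⟨_, ⟨⟨g, n, s⟩, rfl⟩, rfl⟩
      rcases g with _ | ⟨j, k, x⟩
      · refine condRel_hom (model f) (fun n _ => ?_) (fun n _ => ?_) n s
        · exact map_one _
        · rw [model_lt]; exact map_one _
      · exact model_W ℤ (fun _ => 0) el el_comm el_same el_zero f (fun _ _ _ => rfl) j k x n s
    let φ := PresentedGroup.toGroup hrel
    let g : Grp (Set.range condRel) := PresentedGroup.of (sg (some (0, 1, 0)))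
    have hg : φ g = el 0 1 1 := by
      simp only [φ, g, PresentedGroup.toGroup.of, Equiv.symm_apply_apply, f, Option.elim, val_zero]
    refine Infinite.of_injective (fun n : ℕ => g ^ n) fun m n h => ?_
    have h1 := congrArg φ h
    simp only [map_pow, hg, el_pow] at h1
    have h2 := congrArg (fun M : (Matrix (Fin 3) (Fin 3) (Module.End ℤ (V ℤ)))ˣ =>
      (M : Matrix (Fin 3) (Fin 3) (Module.End ℤ (V ℤ))) 0 1 1 (0, [])) h1
    simpa [el_val (show (0 : Fin 3) ≠ 1 by decide)] using h2
  · rintro e he hs k X ⟨h1, h2⟩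
    by_cases h : ∀ x ∈ X, ∃ u g, True ∧
        x (ev (Set.range condRel) (u ++ lt g)) ≠ x (ev (Set.range condRel) u)
    · exact P2_not_hard ((hard_of_noninv _ he hs (fun _ => True) 
        (fun g _ n s => Set.mem_range_self (g, n, s)) X h).medLE h1)
    · push Not at h
      obtain ⟨x, hx, hinv⟩ := h
      have htop : Subgroup.closure {a | ∃ g, True ∧ a = ev (Set.range condRel) (lt g)} = ⊤ := by
        rw [eq_top_iff, ← PresentedGroup.closure_range_of]
        refine Subgroup.closure_mono ?_
        rintro _ ⟨i, rfl⟩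
        exact ⟨sg.symm i, trivial, by simp [lt, ev_of]⟩
      have hc : ∀ a, x a = x 1 := fun a => by
        have := inv_of_gens x (fun _ => True) (fun u g hg => hinv u g hg) a
          (htop ▸ Subgroup.mem_top a) 1
        rwa [one_mul] at this
      obtain ⟨z, hz, hzc⟩ := h2.computable (y := fun _ => (x 1).val)
        ⟨x, hx, funext fun n => by rw [hc (ev _ (e n))]⟩ (Computable.const _)
      exact P2_not_computable hz hzc

end Pool.Agent.H49Z.Med
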