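import Pool.Agent.H49Z.Med.Toe

/-!
The group with a quotient onto `ℤ`, its models, and the cocycle layer.
-/

set_option autoImplicit false

namespace Pool.Agent.H49Z.Med

open Matrix Nat.Partrec.Code
open Nat.Partrec (Code)
open scoped commutatorElement

/-- Powers of the stable letter. -/
noncomputable def tw (i : ℕ) : Word rk := List.replicate i (sg none, true)

/-- The ring generator testing for the letter `b`. -/
def ub (b : ℕ) : Fin 15 := ⟨7 + b % 8, by omega⟩

/-- The word testing for the letter `a.2` at position `a.1`. -/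
noncomputable def atw (j l : Fin 3) (a : ℕ × ℕ) : Word rk :=
  tw a.1 ++ lt (some (j, l, ub a.2)) ++ FreeGroup.invRev (tw a.1)

/-- The positions and letters of a word. -/
def atoms (w : List ℕ) : List (ℕ × ℕ) := (List.range w.length).map fun i => (i, w.getD i 0)

/-- The word testing for an occurrence of `w`. -/
noncomputable def patW (j k : Fin 3) (w : List ℕ) : Word rk :=
  mono atw (fun j l => lt (some (j, l, 0))) j k (atoms w)

/-- Relators forbidding words. -/
noncomputable def patRel (z : (Fin 3 × Fin 3) × ℕ × ℕ) : Word rk :=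
  ((evaln z.2.2 (Denumerable.ofNat Code z.2.1) z.2.1).map fun v =>
    if (wd v).length = 2 ^ (z.2.1 + 3) then patW z.1.1 z.1.2 (wd v) else []).getD []

/-- Relators describing conjugation by the stable letter. -/
noncomputable def conjRel (z : (Fin 3 × Fin 3 × Fin 15) × Bool) : Word rk :=
  if z.2 then lt none ++ lt (some z.1) ++ FreeGroup.invRev (lt none) ++
      FreeGroup.invRev (mono0 z.1.1 z.1.2.1 [5, z.1.2.2, 6])
  else FreeGroup.invRev (lt none) ++ lt (some z.1) ++ lt none ++
      FreeGroup.invRev (mono0 z.1.1 z.1.2.1 [6, z.1.2.2, 5])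

/-- The relators. -/
def R2 : Set (Word rk) := {w | w ∈ Set.range (fun z : (Fin 3 × Fin 3 × Fin 15) × ℕ × ℕ =>
  condRel (some z.1, z.2)) ∨ w ∈ Set.range conjRel ∨ w ∈ Set.range patRel}

theorem primrec_tw : Primrec tw := primrec_replicate _

theorem primrec_atw (j l : Fin 3) : Primrec (atw j l) := by
  have h0 : Primrec ub := Primrec.fin_val_iff.1
    (Primrec.nat_add.comp (Primrec.const 7) (Primrec.nat_mod.comp Primrec.id (Primrec.const 8)))
  have h1 : Primrec fun a : ℕ × ℕ => tw a.1 := primrec_tw.comp Primrec.fst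
  have h2 : Primrec fun a : ℕ × ℕ => lt (some (j, l, ub a.2)) :=
    (Primrec.dom_finite fun x : Fin 15 => lt (some (j, l, x))).comp (h0.comp Primrec.snd)
  exact Primrec.list_append.comp (Primrec.list_append.comp h1 h2) (primrec_invRev.comp h1)

theorem primrec_atoms : Primrec atoms := by
  have h1 : Primrec fun u : List ℕ × ℕ => (u.2, u.1.getD u.2 0) :=
    Primrec.snd.pair ((Primrec.list_getD 0).comp Primrec.fst Primrec.snd)
  exact Primrec.list_map (Primrec.list_range.comp Primrec.list_length) h1.to₂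

theorem primrec_patW : Primrec₂ fun (jk : Fin 3 × Fin 3) (w : List ℕ) => patW jk.1 jk.2 w :=
  primrec_fin_param _ fun jk =>
    ((primrec_mono primrec_atw (fun j l => lt (some (j, l, 0))) jk.1 jk.2).comp
      primrec_atoms).of_eq fun _ => rfl

theorem primrec_patRel : Primrec patRel := by
  have h1 : Primrec fun z : (Fin 3 × Fin 3) × ℕ × ℕ =>
      evaln z.2.2 (Denumerable.ofNat Code z.2.1) z.2.1 :=
    primrec_evaln.comp (((Primrec.snd.comp Primrec.snd).pair
      ((Primrec.ofNat Code).comp (Primrec.fst.comp Primrec.snd))).pair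
      (Primrec.fst.comp Primrec.snd))
  have h2 : Primrec fun u : ((Fin 3 × Fin 3) × ℕ × ℕ) × ℕ => wd u.2 := primrec_wd.comp Primrec.snd
  have h3 : Primrec fun u : ((Fin 3 × Fin 3) × ℕ × ℕ) × ℕ => 2 ^ (u.1.2.1 + 3) :=
    primrec_two_pow.comp (Primrec.nat_add.comp
      (Primrec.fst.comp (Primrec.snd.comp Primrec.fst)) (Primrec.const 3))
  have h4 : Primrec fun u : ((Fin 3 × Fin 3) × ℕ × ℕ) × ℕ => patW u.1.1.1 u.1.1.2 (wd u.2) :=
    primrec_patW.comp (Primrec.fst.comp Primrec.fst) h2
  have h5 : Primrec fun u : ((Fin 3 × Fin 3) × ℕ × ℕ) × ℕ =>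
      if (wd u.2).length = 2 ^ (u.1.2.1 + 3) then patW u.1.1.1 u.1.1.2 (wd u.2) else [] :=
    Primrec.ite (Primrec.eq.comp (Primrec.list_length.comp h2) h3) h4 (Primrec.const [])
  exact Primrec.option_getD.comp (Primrec.option_map h1 h5.to₂) (Primrec.const [])

theorem re_R2 : REPred (· ∈ R2) := by
  have h1 : Primrec fun z : (Fin 3 × Fin 3 × Fin 15) × ℕ × ℕ => condRel (some z.1, z.2) :=
    primrec_condRel.comp ((Primrec.option_some.comp Primrec.fst).pair Primrec.snd)
  exact re_or (re_range h1.to_comp) (re_or (re_range (Primrec.dom_finite conjRel).to_comp)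
    (re_range primrec_patRel.to_comp))

section Model

/-- The field with two elements. -/
abbrev K2 : Type := ZMod 2

/-- The ring of operators. -/
abbrev Rg : Type := Module.End K2 (V K2)

/-- The target group of the models. -/
abbrev Hg : Type := (Matrix (Fin 3) (Fin 3) Rg)ˣ × Multiplicative ℤ

/-- The shift operator. -/
noncomputable def Tu (y0 : ℤ → Fin 8) : Rgˣ :=
  ⟨val K2 y0 5, val K2 y0 6, by ext v ⟨i, l⟩; simp [val], by ext v ⟨i, l⟩; simp [val]⟩

/-- Scalar matrices. -/
noncomputable def scal {R : Type} [Ring R] : Rˣ →* (Matrix (Fin 3) (Fin 3) R)ˣ :=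
  Units.map (Matrix.scalar (Fin 3)).toMonoidHom

theorem scal_conj {R : Type} [Ring R] (u : Rˣ) (j k : Fin 3) (x : R) :
    scal u * el j k x * (scal u)⁻¹ = el j k (u * x * (u⁻¹ : Rˣ)) := by
  by_cases h : j = k
  · subst h; simp [el_same]
  · rw [← map_inv]
    ext a b
    simp only [Units.val_mul, el_val h, scal, Units.coe_map, RingHom.toMonoidHom_eq_coe,
      MonoidHom.coe_coe, scalar_apply, mul_diagonal, diagonal_mul, Matrix.add_apply,
      Matrix.one_apply, single_apply]
    split_ifs <;> simp [mul_add, add_mul]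

/-- Images of the elementary generators. -/
noncomputable def EE (j k : Fin 3) (x : Rg) : Hg := (el j k x, 1)

theorem EE_comm (j l k : Fin 3) (hjl : j ≠ l) (hlk : l ≠ k) (hjk : j ≠ k) (x y : Rg) :
    ⁅EE j l x, EE l k y⁆ = EE j k (x * y) := by
  refine Prod.ext (el_comm j l k hjl hlk hjk x y) ?_
  simp [EE, commutatorElement_def]

theorem EE_same (j : Fin 3) (x : Rg) : EE j j x = 1 := by simp [EE, el_same]

theorem EE_zero (j k : Fin 3) : EE j k 0 = 1 := by simp [EE, el_zero]

/-- Images of the generators. -/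
noncomputable def ff (y0 : ℤ → Fin 8) (g : Gen) : Hg :=
  g.elim (scal (Tu y0), Multiplicative.ofAdd 1) fun a => EE a.1 a.2.1 (val K2 y0 a.2.2)

theorem conj_EE (u : Rgˣ) (m : Multiplicative ℤ) (j k : Fin 3) (x : Rg) :
    ((scal u, m) : Hg) * EE j k x * ((scal u, m) : Hg)⁻¹ = EE j k (u * x * (u⁻¹ : Rgˣ)) := by
  refine Prod.ext (scal_conj u j k x) ?_
  simp [EE]

theorem mk_tw (i : ℕ) : FreeGroup.mk (tw i) = FreeGroup.mk (lt none) ^ i := by
  induction i with
  | zero => rfl
  | succ n ih => rw [pow_succ', ← ih, FreeGroup.mul_mk]; rfl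

theorem Tu_pow (y0 : ℤ → Fin 8) (n : ℕ) (v : V K2) (i : ℤ) (l : List Bool) :
    ((Tu y0 ^ n : Rgˣ) : Rg) v (i, l) = v (i + n, l) := by
  induction n generalizing v with
  | zero => simp
  | succ n ih =>
    rw [pow_succ, Units.val_mul, Module.End.mul_apply, ih]
    simp [Tu, val, add_assoc]

theorem val_ub (y0 : ℤ → Fin 8) (b : ℕ) :
    val K2 y0 (ub b) = mulf K2 fun p => if (y0 p.1).val = b % 8 then 1 else 0 := by
  have h : ∀ c : Fin 15, c.val < 7 → ub b ≠ c := fun c hc h => by
    have := congrArg Fin.val h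
    simp only [ub] at this; omega
  unfold val
  rw [if_neg (h 0 (by decide)), if_neg (h 1 (by decide)), if_neg (h 2 (by decide)),
    if_neg (h 3 (by decide)), if_neg (h 4 (by decide)), if_neg (h 5 (by decide)),
    if_neg (h 6 (by decide))]
  congr 1
  funext p
  simp only [ub]
  congr 1
  exact propext ⟨fun h => by omega, fun h => by omega⟩

/-- The value of an atom. -/
noncomputable def aval (y0 : ℤ → Fin 8) (a : ℕ × ℕ) : Rg :=
  mulf K2 fun p => if (y0 (p.1 + a.1)).val = a.2 % 8 then 1 else 0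

theorem conj_ub (y0 : ℤ → Fin 8) (a : ℕ × ℕ) :
    ((Tu y0 ^ a.1 : Rgˣ) : Rg) * val K2 y0 (ub a.2) * ((Tu y0 ^ a.1)⁻¹ : Rgˣ) = aval y0 a := by
  rw [Units.mul_inv_eq_iff_eq_mul]
  ext v ⟨i, l⟩
  simp only [Module.End.mul_apply, Tu_pow, val_ub, aval, mulf_apply]

theorem prod_aval (y0 : ℤ → Fin 8) (L : List (ℕ × ℕ)) (v : V K2) (p : ℤ × List Bool)
    (h : ¬ ∀ a ∈ L, (y0 (p.1 + a.1)).val = a.2 % 8) : (L.map (aval y0)).prod v p = 0 := by
  induction L with
  | nil => simp at h
  | cons a L ih =>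
    rw [List.map_cons, List.prod_cons, Module.End.mul_apply, aval, mulf_apply]
    by_cases ha : (y0 (p.1 + a.1)).val = a.2 % 8
    · have := ih fun h' => h (List.forall_mem_cons.2 ⟨ha, h'⟩)
      rw [this, mul_zero]
    · rw [if_neg ha, zero_mul]

theorem model_mono0 (y0 : ℤ → Fin 8) (j k : Fin 3) (L : List (Fin 15)) :
    model (ff y0) (FreeGroup.mk (mono0 j k L)) = EE j k (L.map (val K2 y0)).prod :=
  mono0_hom (model (ff y0)) EE EE_comm EE_same (val K2 y0) (val_zero K2 y0)
    (fun j k x => by rw [model_lt]; rfl) j k L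

theorem model_R2 {y0 : ℤ → Fin 8} (hy : Avoids y0) : ∀ w ∈ FreeGroup.mk '' R2,
    FreeGroup.lift (fun i => ff y0 (sg.symm i)) w = 1 := by
  rintro _ ⟨w, hw, rfl⟩
  change model (ff y0) (FreeGroup.mk w) = 1
  rcases hw with ⟨⟨⟨j, k, x⟩, n, s⟩, rfl⟩ | ⟨⟨⟨j, k, x⟩, b⟩, rfl⟩ | ⟨⟨⟨j, k⟩, e, s⟩, rfl⟩
  · exact model_W K2 y0 EE EE_comm EE_same EE_zero (ff y0) (fun _ _ _ => rfl) j k x n s
  · cases b
    · simp only [conjRel, Bool.false_eq_true, if_false, ← FreeGroup.mul_mk, ← FreeGroup.inv_mk,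
        map_mul, map_inv, model_lt, model_mono0]
      rw [mul_inv_eq_one]
      have := conj_EE (Tu y0)⁻¹ (Multiplicative.ofAdd 1)⁻¹ j k (val K2 y0 x)
      have e5 : ((Tu y0 : Rgˣ) : Rg) = val K2 y0 5 := rfl
      have e6 : (((Tu y0)⁻¹ : Rgˣ) : Rg) = val K2 y0 6 := rfl
      rw [map_inv, inv_inv, e5, e6] at this
      simpa [ff, mul_assoc] using this
    · simp only [conjRel, if_true, ← FreeGroup.mul_mk, ← FreeGroup.inv_mk,
        map_mul, map_inv, model_lt, model_mono0]
      rw [mul_inv_eq_one]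
      have := conj_EE (Tu y0) (Multiplicative.ofAdd 1) j k (val K2 y0 x)
      have e5 : ((Tu y0 : Rgˣ) : Rg) = val K2 y0 5 := rfl
      have e6 : (((Tu y0)⁻¹ : Rgˣ) : Rg) = val K2 y0 6 := rfl
      rw [e5, e6] at this
      simpa [ff, mul_assoc] using this
  · unfold patRel
    dsimp only
    rcases hv : evaln s (Denumerable.ofNat Code e) e with _ | v
    · exact map_one _
    · simp only [Option.map_some, Option.getD_some]
      split_ifs with hl
      · have h1 := mono_hom (model (ff y0)) EE EE_comm EE_same atw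
          (fun j l => lt (some (j, l, 0))) (aval y0) (atoms (wd v)) (fun a _ j l => by
            simp only [atw, ← FreeGroup.mul_mk, ← FreeGroup.inv_mk, map_mul, map_inv, mk_tw,
              map_pow, model_lt]
            have := conj_EE (Tu y0 ^ a.1) (Multiplicative.ofAdd 1 ^ a.1) j l (val K2 y0 (ub a.2))
            rw [conj_ub, map_pow] at this
            exact this)
          (fun j k => by rw [model_lt, ← val_zero K2 y0]; rfl) j k
        have h2 : ((atoms (wd v)).map (aval y0)).prod = 0 := by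
          ext u p
          refine prod_aval y0 _ u p fun h => hy e v (evaln_sound hv) hl p.1 fun i hi => ?_
          exact h (i, (wd v).getD i 0) (List.mem_map.2 ⟨i, List.mem_range.2 hi, rfl⟩)
        rw [patW, h1, h2, EE_zero]
      · exact map_one _

/-- The model attached to an admissible sequence. -/
noncomputable def rho {y0 : ℤ → Fin 8} (hy : Avoids y0) : Grp R2 →* Hg :=
  PresentedGroup.toGroup (model_R2 hy)

theorem rho_lt {y0 : ℤ → Fin 8} (hy : Avoids y0) (g : Gen) : rho hy (ev R2 (lt g)) = ff y0 g := by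
  simp [rho, lt, ev_of]

/-- Functions supported at one position. -/
def JJ (i : ℤ) (v : List Bool → K2) : V K2 := fun p => if p.1 = i then v p.2 else 0

theorem col_ne (M : (Matrix (Fin 3) (Fin 3) Rg)ˣ) (i : ℤ)
    (h1 : ∀ j, (M : Matrix (Fin 3) (Fin 3) Rg) j 0 (JJ i 1) = 0) : False := by
  have h2 : (((M⁻¹ : (Matrix (Fin 3) (Fin 3) Rg)ˣ) : Matrix (Fin 3) (Fin 3) Rg) *
      (M : Matrix (Fin 3) (Fin 3) Rg)) 0 0 = 1 := by rw [Units.inv_mul, Matrix.one_apply_eq]
  rw [Matrix.mul_apply] at h2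
  have h3 := LinearMap.congr_fun h2 (JJ i 1)
  rw [LinearMap.sum_apply, Finset.sum_eq_zero fun j _ => by
    rw [Module.End.mul_apply, h1, map_zero]] at h3
  have h4 := congrFun h3 (i, [])
  simp [JJ] at h4

/-- The local rules of the covering subshift of finite type, at the identity. -/
def Ok (u : Grp R2 → Fin 8 × (Fin 3 → K2)) : Prop :=
  (u 1).2 ≠ 0 ∧ (∀ s, (u (ev R2 (lt (some s)))).1 = (u 1).1) ∧
    (u (ev R2 (lt none))).2 = (u 1).2 ∧
    (∀ j k, (u (ev R2 (lt (some (j, k, 0))))).2 = (u 1).2 ᵥ* (el j k (1 : K2) : Matrix _ _ K2)) ∧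
    (∀ j k b, (u (ev R2 (lt (some (j, k, ub b))))).2 =
      (u 1).2 ᵥ* (el j k (if (u 1).1.val = b % 8 then 1 else 0 : K2) : Matrix _ _ K2))

theorem exists_cover {y0 : ℤ → Fin 8} (hy : Avoids y0) :
    ∃ z : Grp R2 → Fin 3 → K2, ∀ g, Ok fun h => (y0 (rho hy (g * h)).2.toAdd, z (g * h)) := by
  classical
  let C : Grp R2 → (Fin 3 × (List Bool → K2) × (ℤ × List Bool)) → Fin 3 → K2 := fun g ω k =>
    ((rho hy g).1 : Matrix (Fin 3) (Fin 3) Rg) ω.1 k (JJ (rho hy g).2.toAdd ω.2.1) ω.2.2
  have hne : ∀ g, ∃ ω, C g ω ≠ 0 := by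
    intro g
    by_contra hh
    push Not at hh
    exact col_ne (rho hy g).1 (rho hy g).2.toAdd fun j => funext fun p => congrFun (hh (j, 1, p)) 0
  let z : Grp R2 → Fin 3 → K2 := fun g => C g (Classical.epsilon fun ω => C g ω ≠ 0)
  have mv : ∀ g g' (F : (Matrix (Fin 3) (Fin 3) K2)ˣ),
      (∀ ω, C g' ω = C g ω ᵥ* (F : Matrix _ _ K2)) → z g' = z g ᵥ* (F : Matrix _ _ K2) := by
    intro g g' F h
    have : (fun ω => C g' ω ≠ 0) = fun ω => C g ω ≠ 0 := by
      funext ω
      refine propext (not_congr ⟨fun h0 => ?_, fun h0 => by rw [h, h0, zero_vecMul]⟩)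
      have : C g ω = (C g' ω) ᵥ* ((F⁻¹ : (Matrix (Fin 3) (Fin 3) K2)ˣ) : Matrix _ _ K2) := by
        rw [h, vecMul_vecMul, Units.mul_inv, vecMul_one]
      rw [this, h0, zero_vecMul]
    show C g' (Classical.epsilon fun ω => C g' ω ≠ 0) = _
    rw [this, h]
  have mvel : ∀ g j k x (ε : K2), (∀ v, val K2 y0 x (JJ (rho hy g).2.toAdd v) =
      ε • JJ (rho hy g).2.toAdd v) →
      z (g * ev R2 (lt (some (j, k, x)))) = z g ᵥ* (el j k ε : Matrix _ _ K2) := by
    intro g j k x ε h
    refine mv _ _ _ fun ω => ?_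
    by_cases hjk : j = k
    · subst hjk
      simp [C, rho_lt, ff, EE, el_same]
    · funext k'
      simp only [C, map_mul, rho_lt, ff, EE, Option.elim, Prod.fst_mul, Prod.snd_mul, mul_one,
        Units.val_mul, el_val hjk, Matrix.mul_add, Matrix.add_apply, vecMul_add,
        vecMul_one, Pi.add_apply, LinearMap.add_apply]
      congr 1
      by_cases hk : k' = k
      · subst hk
        simp [mul_single_apply_same, h, vecMul, dotProduct, single_apply, mul_comm]
      · simp [mul_single_apply_of_ne _ _ _ _ _ hk, vecMul, dotProduct, Ne.symm hk]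
  refine ⟨z, fun g => ⟨?_, fun s => ?_, ?_, fun j k => ?_, fun j k b => ?_⟩⟩
  · simpa using Classical.epsilon_spec (hne g)
  · simp [rho_lt, ff, EE]
  · have := mv g (g * ev R2 (lt none)) 1 fun ω => by
      funext k
      have hJ : ∀ i v, ((Tu y0 : Rgˣ) : Rg) (JJ (i + 1) v) = JJ i v := by
        intro i v; funext p; simp [Tu, val, JJ]
      simp [C, rho_lt, ff, scal, hJ]
    simpa using this
  · simp only [mul_one]
    exact mvel g j k 0 1 fun v => by simp [val_zero]
  · simp only [mul_one]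
    refine mvel g j k (ub b) _ fun v => ?_
    funext p
    simp only [val_ub, mulf_apply, JJ, Pi.smul_apply, smul_eq_mul]
    by_cases hp : p.1 = (rho hy g).2.toAdd
    · rw [hp]
    · simp [hp]

end Model

end Pool.Agent.H49Z.Med
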