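import Pool.Agent.H49Z.Med.Ring

/-!
A Toeplitz coding on `ℤ`, and periodic points of subshifts of finite type that come from `ℤ`.
-/

set_option autoImplicit false

namespace Pool.Agent.H49Z.Med

open Encodable

theorem vv_ex (m : ℕ) : ∃ k, m % 2 ^ (k + 1) ≠ 0 ∨ m = 0 := by
  by_cases h : m = 0
  · exact ⟨0, Or.inr h⟩
  · refine ⟨m, Or.inl ?_⟩
    have : m < 2 ^ (m + 1) := (Nat.lt_two_pow_self).trans (Nat.pow_lt_pow_right (by omega) (by omega))
    rw [Nat.mod_eq_of_lt this]; exact h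

/-- The `2`-adic valuation. -/
def vv (m : ℕ) : ℕ := Nat.find (vv_ex m)

theorem vv_eq {m k : ℕ} (h1 : 2 ^ k ∣ m) (h2 : ¬ 2 ^ (k + 1) ∣ m) : vv m = k := by
  refine (Nat.find_eq_iff _).2 ⟨Or.inl fun h => h2 (Nat.dvd_of_mod_eq_zero h), fun j hj => ?_⟩
  rintro (h | h)
  · exact h (Nat.mod_eq_zero_of_dvd ((pow_dvd_pow 2 hj).trans h1))
  · exact h2 (h ▸ dvd_zero _)

theorem primrec_pow : Primrec₂ ((· ^ ·) : ℕ → ℕ → ℕ) := Primrec₂.unpaired'.1 Nat.Primrec.pow

theorem primrec_two_pow : Primrec fun k : ℕ => 2 ^ k :=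
  primrec_pow.comp (Primrec.const 2) Primrec.id

theorem comp_vv : Computable vv := by
  have h1 : Primrec fun z : ℕ × ℕ => z.1 % 2 ^ (z.2 + 1) :=
    Primrec.nat_mod.comp Primrec.fst (primrec_two_pow.comp (Primrec.succ.comp Primrec.snd))
  have h2 : PrimrecPred fun z : ℕ × ℕ => z.1 % 2 ^ (z.2 + 1) ≠ 0 ∨ z.1 = 0 :=
    (Primrec.eq.comp h1 (Primrec.const 0)).not.or (Primrec.eq.comp Primrec.fst (Primrec.const 0))
  exact Computable.find (P := fun m k => m % 2 ^ (k + 1) ≠ 0 ∨ m = 0) h2.computablePred vv_ex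

/-- The structure layer. -/
def s0 (n : ℤ) : ℕ := vv (3 * n + 1).natAbs % 2

theorem s0_eq {n : ℤ} {k : ℕ} (h1 : (2 : ℤ) ^ k ∣ 3 * n + 1) (h2 : ¬ (2 : ℤ) ^ (k + 1) ∣ 3 * n + 1) :
    s0 n = k % 2 := by
  unfold s0
  rw [vv_eq (k := k)]
  · exact Int.natCast_dvd.1 (by exact_mod_cast h1)
  · exact fun h => h2 (by exact_mod_cast Int.natCast_dvd.2 h)

theorem exists_val (N : ℤ) (hN : N ≠ 0) : ∃ k : ℕ, (2 : ℤ) ^ k ∣ N ∧ ¬ (2 : ℤ) ^ (k + 1) ∣ N := by
  obtain ⟨k, m, hm, h⟩ := Nat.exists_eq_two_pow_mul_odd (n := N.natAbs) (by simpa using hN)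
  refine ⟨k, ?_, fun h2 => ?_⟩
  · exact_mod_cast Int.natCast_dvd.2 (show 2 ^ k ∣ N.natAbs from ⟨m, h⟩)
  · have h3 : 2 ^ (k + 1) ∣ N.natAbs := Int.natCast_dvd.1 (by exact_mod_cast h2)
    rw [h, pow_succ] at h3
    have := Nat.dvd_of_mul_dvd_mul_left (by positivity) h3
    exact (Nat.not_even_iff_odd.2 hm) (even_iff_two_dvd.2 this)

theorem not_dvd_three (j : ℕ) : ¬ (2 : ℤ) ^ (j + 1) ∣ 3 * 2 ^ j := by
  rw [pow_succ, mul_comm 3]
  intro h
  have := Int.dvd_of_mul_dvd_mul_left (by positivity) h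
  omega

theorem lev_ex (n : ℤ) : ∃ j : ℕ, s0 (n + 2 ^ j) ≠ j % 2 := by
  obtain ⟨k, h1, h2⟩ := exists_val (3 * n + 1) (by omega)
  refine ⟨k + 1, ?_⟩
  have e : 3 * (n + 2 ^ (k + 1)) + 1 = (3 * n + 1) + 3 * 2 ^ (k + 1) := by ring
  rw [s0_eq (k := k)]
  · omega
  · rw [e]; exact dvd_add h1 (Dvd.dvd.mul_left (pow_dvd_pow 2 (by omega)) 3)
  · rw [e]; exact fun h => h2 ((dvd_add_left (Dvd.dvd.mul_left dvd_rfl 3)).1 h)

/-- The level of a position. -/
def lev (n : ℤ) : ℕ := Nat.find (lev_ex n)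

/-- The marker pattern of level `e`. -/
def target (e j : ℕ) : ℕ := if j < e then j % 2 else (e + 1) % 2

theorem lev_eq {e : ℕ} {n : ℤ} (h : ∀ j < e + 1, s0 (n + 2 ^ j) = target e j) : lev n = e := by
  refine (Nat.find_eq_iff _).2 ⟨?_, fun j hj => ?_⟩
  · rw [h e (by omega), target, if_neg (lt_irrefl e)]; omega
  · rw [h j (by omega), target, if_pos hj]; simp

theorem syndetic (e : ℕ) (n : ℤ) :
    ∃ i : ℕ, i < 2 ^ (e + 2) ∧ ∀ j < e + 1, s0 (n + i + 2 ^ j) = target e j := by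
  have hc : IsCoprime (3 : ℤ) (2 ^ (e + 2)) := IsCoprime.pow_right ⟨1, -1, by norm_num⟩
  obtain ⟨a, b, hab⟩ := hc
  have hM : (0 : ℤ) < 2 ^ (e + 2) := by positivity
  set c : ℤ := 3 * 2 ^ e - (3 * n + 1) with hcdef
  have h0 := Int.emod_nonneg (c * a) hM.ne'
  have h1 := Int.emod_lt_of_pos (c * a) hM
  have h2 := Int.emod_add_mul_ediv (c * a) (2 ^ (e + 2))
  obtain ⟨i, hi⟩ := Int.eq_ofNat_of_zero_le h0
  have key : ∃ d : ℤ, 3 * (n + i) + 1 = 3 * 2 ^ e + 2 ^ (e + 2) * d := by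
    refine ⟨-(c * b) - 3 * (c * a / 2 ^ (e + 2)), ?_⟩
    rw [← hi]
    linear_combination 3 * h2 + c * hab + hcdef
  obtain ⟨d, hd⟩ := key
  refine ⟨i, by rw [hi] at h1; exact_mod_cast h1, fun j hj => ?_⟩
  have e1 : 3 * (n + i + 2 ^ j) + 1 = (3 * 2 ^ e + 2 ^ (e + 2) * d) + 3 * 2 ^ j := by
    rw [← hd]; ring
  by_cases hje : j < e
  · have a1 : (2 : ℤ) ^ (j + 1) ∣ 3 * 2 ^ e + 2 ^ (e + 2) * d :=
      dvd_add (Dvd.dvd.mul_left (pow_dvd_pow 2 (by omega)) 3)
        (Dvd.dvd.mul_right (pow_dvd_pow 2 (by omega)) d)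
    rw [target, if_pos hje]
    refine s0_eq ?_ ?_
    · rw [e1]; exact dvd_add ((pow_dvd_pow 2 (by omega)).trans a1) (Dvd.dvd.mul_left dvd_rfl 3)
    · rw [e1]; exact fun h => not_dvd_three j ((dvd_add_right a1).1 h)
  · have hj' : j = e := by omega
    subst hj'
    have e2 : 3 * (n + i + 2 ^ j) + 1 = 2 ^ (j + 2) * d + 3 * 2 ^ (j + 1) := by rw [e1]; ring
    rw [target, if_neg hje]
    refine s0_eq ?_ ?_
    · rw [e2]
      exact dvd_add (Dvd.dvd.mul_right (pow_dvd_pow 2 (by omega)) d) (Dvd.dvd.mul_left dvd_rfl 3)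
    · rw [e2]
      exact fun h => not_dvd_three (j + 1) ((dvd_add_right (Dvd.dvd.mul_right dvd_rfl d)).1 h)

theorem comp_s0 : Computable fun z : ℕ × ℕ => s0 ((z.1 : ℤ) - z.2) := by
  have h3 : Primrec fun z : ℕ × ℕ => 3 * z.1 + 1 :=
    Primrec.succ.comp (Primrec.nat_mul.comp (Primrec.const 3) Primrec.fst)
  have h4 : Primrec fun z : ℕ × ℕ => 3 * z.2 := Primrec.nat_mul.comp (Primrec.const 3) Primrec.snd
  have h1 : Primrec fun z : ℕ × ℕ => (3 * z.1 + 1 - 3 * z.2) + (3 * z.2 - (3 * z.1 + 1)) :=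
    Primrec.nat_add.comp (Primrec.nat_sub.comp h3 h4) (Primrec.nat_sub.comp h4 h3)
  have h2 : Computable fun z : ℕ × ℕ =>
      vv ((3 * z.1 + 1 - 3 * z.2) + (3 * z.2 - (3 * z.1 + 1))) % 2 :=
    Primrec.nat_mod.to_comp.comp (comp_vv.comp h1.to_comp) (Computable.const 2)
  refine h2.of_eq fun z => ?_
  unfold s0
  congr 2
  omega

theorem comp_lev : Computable fun z : ℕ × ℕ => lev ((z.1 : ℤ) - z.2) := by
  have h0 : Primrec fun u : (ℕ × ℕ) × ℕ => (u.1.1 + 2 ^ u.2, u.1.2) :=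
    (Primrec.nat_add.comp (Primrec.fst.comp Primrec.fst) (primrec_two_pow.comp Primrec.snd)).pair
      (Primrec.snd.comp Primrec.fst)
  have h1 : Computable fun u : (ℕ × ℕ) × ℕ => s0 ((u.1.1 : ℤ) - u.1.2 + 2 ^ u.2) :=
    (comp_s0.comp h0.to_comp).of_eq fun u => by
      congr 1
      push_cast
      ring
  have h2 : Computable fun u : (ℕ × ℕ) × ℕ => u.2 % 2 :=
    (Primrec.nat_mod.comp Primrec.snd (Primrec.const 2)).to_comp
  exact Computable.find (P := fun (z : ℕ × ℕ) j => s0 ((z.1 : ℤ) - z.2 + 2 ^ j) ≠ j % 2)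
    (cpred_eq h1 h2).not fun z => lev_ex _

/-- The marker pattern of level `e` is read at position `i` of the word `w`. -/
def dtest (e : ℕ) (w : List ℕ) (i : ℕ) : Prop :=
  ∀ j < e + 1, w.getD (i + 2 ^ j) 0 % 8 / 4 = target e j

instance (e : ℕ) (w : List ℕ) (i : ℕ) : Decidable (dtest e w i) := by
  unfold dtest; infer_instance

/-- The first marked position. -/
def first (e : ℕ) (w : List ℕ) : ℕ := (List.range w.length).findIdx fun i => decide (dtest e w i)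

/-- The word coded by a number. -/
def wd (v : ℕ) : List ℕ := (decode v : Option (List ℕ)).getD []

theorem primrec_wd : Primrec wd := Primrec.option_getD.comp Primrec.decode (Primrec.const [])

/-- The values to be avoided. -/
def Bad (z : ℕ × ℕ) : Prop := ∃ v, v ∈ dg z.1 ∧ z.2 = (wd v).getD (first z.1 (wd v)) 0 % 4

theorem primrec_first : Primrec fun z : ℕ × List ℕ => first z.1 z.2 := by
  have t1 : Primrec fun u : ((ℕ × List ℕ) × ℕ) × ℕ => target u.1.1.1 u.2 := by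
    unfold target
    exact Primrec.ite (Primrec.nat_lt.comp Primrec.snd
      (Primrec.fst.comp (Primrec.fst.comp Primrec.fst)))
      (Primrec.nat_mod.comp Primrec.snd (Primrec.const 2))
      (Primrec.nat_mod.comp (Primrec.succ.comp (Primrec.fst.comp (Primrec.fst.comp Primrec.fst)))
        (Primrec.const 2))
  have t2 : Primrec fun u : ((ℕ × List ℕ) × ℕ) × ℕ => u.1.2 + 2 ^ u.2 :=
    Primrec.nat_add.comp (Primrec.snd.comp Primrec.fst) (primrec_two_pow.comp Primrec.snd)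
  have t3 : Primrec fun u : ((ℕ × List ℕ) × ℕ) × ℕ => u.1.1.2.getD (u.1.2 + 2 ^ u.2) 0 :=
    (Primrec.list_getD 0).comp (Primrec.snd.comp (Primrec.fst.comp Primrec.fst)) t2
  have t4 : Primrec fun u : ((ℕ × List ℕ) × ℕ) × ℕ => u.1.1.2.getD (u.1.2 + 2 ^ u.2) 0 % 8 / 4 :=
    Primrec.nat_div.comp (Primrec.nat_mod.comp t3 (Primrec.const 8)) (Primrec.const 4)
  have t5 : PrimrecPred fun u : ((ℕ × List ℕ) × ℕ) × ℕ =>
      u.1.1.2.getD (u.1.2 + 2 ^ u.2) 0 % 8 / 4 = target u.1.1.1 u.2 := Primrec.eq.comp t4 t1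
  have t6 : Primrec fun u : (ℕ × List ℕ) × ℕ => u.1.1 + 1 :=
    Primrec.succ.comp (Primrec.fst.comp Primrec.fst)
  have t7 : PrimrecPred fun u : (ℕ × List ℕ) × ℕ => dtest u.1.1 u.1.2 u.2 := ppred_forall_lt t5 t6
  exact Primrec.list_findIdx (f := fun z : ℕ × List ℕ => List.range z.2.length)
    (p := fun z i => decide (dtest z.1 z.2 i))
    (Primrec.list_range.comp (Primrec.list_length.comp Primrec.snd)) t7.decide.to₂

theorem re_Bad : REPred Bad := by
  have h1 : Primrec fun u : (ℕ × ℕ) × ℕ => wd u.2 := primrec_wd.comp Primrec.snd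
  have h2 : Primrec fun u : (ℕ × ℕ) × ℕ => first u.1.1 (wd u.2) :=
    primrec_first.comp ((Primrec.fst.comp Primrec.fst).pair h1)
  have h3 : Primrec fun u : (ℕ × ℕ) × ℕ => (wd u.2).getD (first u.1.1 (wd u.2)) 0 % 4 :=
    Primrec.nat_mod.comp ((Primrec.list_getD 0).comp h1 h2) (Primrec.const 4)
  have h4 : Computable fun u : (ℕ × ℕ) × ℕ => (u.1.1, u.2) :=
    (Computable.fst.comp Computable.fst).pair Computable.snd
  have h5 : REPred fun u : (ℕ × ℕ) × ℕ => u.2 ∈ dg u.1.1 :=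
    re_comp (p := fun x : ℕ × ℕ => x.2 ∈ dg x.1) re_dg h4
  exact re_exists (p := fun u : (ℕ × ℕ) × ℕ => u.2 ∈ dg u.1.1 ∧
    u.1.2 = (wd u.2).getD (first u.1.1 (wd u.2)) 0 % 4)
    (re_and h5 (re_eq (Computable.snd.comp Computable.fst) h3.to_comp))

theorem Bad_unique (e d d' : ℕ) (h : Bad (e, d)) (h' : Bad (e, d')) : d = d' := by
  obtain ⟨v, hv, h1⟩ := h
  obtain ⟨v', hv', h2⟩ := h'
  dsimp only at hv hv' h1 h2
  rw [h1, h2, Part.mem_unique hv hv']

/-- The Toeplitz sequence coding `p`. -/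
def ymod (p : ℕ → ℕ) (n : ℤ) : Fin 8 := ⟨(4 * s0 n + p (lev n)) % 8, Nat.mod_lt _ (by omega)⟩

/-- A two-sided sequence avoids the forbidden words. -/
def Avoids (y0 : ℤ → Fin 8) : Prop :=
  ∀ e v, v ∈ dg e → (wd v).length = 2 ^ (e + 3) → ∀ n : ℤ,
    ¬ ∀ i < (wd v).length, (y0 (n + i)).val = (wd v).getD i 0 % 8

theorem ymod_avoids {p : ℕ → ℕ} (hp : ∀ e, p e < 4 ∧ ¬ Bad (e, p e)) : Avoids (ymod p) := by
  intro e v hv hl n hocc
  set w := wd v with hw
  have hs : ∀ m, s0 m < 2 := fun m => Nat.mod_lt _ (by omega)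
  have hpow : 2 ^ (e + 3) = 2 * 2 ^ (e + 2) := by ring
  have hlt : ∀ j < e + 1, 2 ^ j ≤ 2 ^ (e + 2) := fun j hj => Nat.pow_le_pow_right (by omega) (by omega)
  have key : ∀ i < 2 ^ (e + 2), ∀ j < e + 1, w.getD (i + 2 ^ j) 0 % 8 / 4 = s0 (n + i + 2 ^ j) := by
    intro i hi j hj
    have := hocc (i + 2 ^ j) (by have := hlt j hj; omega)
    rw [← this]
    simp only [ymod]
    have e1 : n + ((i + 2 ^ j : ℕ) : ℤ) = n + i + 2 ^ j := by push_cast; ring
    rw [e1]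
    have := hs (n + i + 2 ^ j)
    have := (hp (lev (n + i + 2 ^ j))).1
    omega
  obtain ⟨i, hi, hd⟩ := syndetic e n
  have hdi : dtest e w i := fun j hj => by rw [key i hi j hj, hd j hj]
  have hil : i < (List.range w.length).length := by simp; omega
  have hle : first e w ≤ i := by
    by_contra hh
    have := List.not_of_lt_findIdx (p := fun i => decide (dtest e w i))
      (xs := List.range w.length) (i := i) (by unfold first at hh; omega)
    simp [hdi] at this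
  have hf : dtest e w (first e w) := by
    have := List.findIdx_getElem (p := fun i => decide (dtest e w i))
      (xs := List.range w.length) (w := by unfold first at hle; omega)
    simpa [first] using this
  have hlev : lev (n + first e w) = e :=
    lev_eq fun j hj => by rw [← key _ (by omega) j hj, hf j hj]
  refine (hp e).2 ⟨v, hv, ?_⟩
  have h1 := hocc (first e w) (by omega)
  simp only [ymod, hlev] at h1
  have := (hp e).1
  show p e = w.getD (first e w) 0 % 4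
  omega

theorem periodic_point {G : Type} [Group G] (κ : G →* Multiplicative ℤ) (τ : G)
    (hτ : κ τ = Multiplicative.ofAdd 1) {k : ℕ} {X : Set (G → Fin k)} (hX : IsSFT X)
    (x0 : ℤ → Fin k) (hx : (fun g => x0 (κ g).toAdd) ∈ X) :
    ∃ (p : ℕ) (z0 : ℤ → Fin k), 0 < p ∧ (∀ n c : ℤ, z0 (n + p * c) = z0 n) ∧
      (fun g => z0 (κ g).toAdd) ∈ X := by
  obtain ⟨F, hF, rfl⟩ := hX
  obtain ⟨ρ, hρ⟩ : ∃ ρ : ℕ, ∀ q ∈ F, ∀ h ∈ q.1, ((κ h).toAdd).natAbs ≤ ρ := by
    refine ⟨hF.toFinset.sup fun q => q.1.sup fun h => ((κ h).toAdd).natAbs, fun q hq h hh => ?_⟩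
    exact (Finset.le_sup (f := fun h => ((κ h).toAdd).natAbs) hh).trans
      (Finset.le_sup (f := fun q : (K : Finset G) × (K → Fin k) =>
        q.1.sup fun h => ((κ h).toAdd).natAbs) (hF.mem_toFinset.2 hq))
  obtain ⟨u, v, huv, he⟩ : ∃ u v : ℕ, u < v ∧ ∀ s : Fin (2 * ρ + 1),
      x0 ((2 * ρ + 1) * u + s.val) = x0 ((2 * ρ + 1) * v + s.val) := by
    obtain ⟨a, b, hab, h⟩ := Finite.exists_ne_map_eq_of_infinite
      fun (u : ℕ) (s : Fin (2 * ρ + 1)) => x0 ((2 * ρ + 1) * u + s.val)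
    rcases lt_or_gt_of_ne hab with h' | h'
    · exact ⟨a, b, h', congrFun h⟩
    · exact ⟨b, a, h', congrFun h.symm⟩
  obtain ⟨d, rfl⟩ := Nat.exists_eq_add_of_lt huv
  set i : ℤ := (2 * ρ + 1) * u with hi
  set p : ℕ := (2 * ρ + 1) * (d + 1) with hp
  have hpL : 2 * ρ + 1 ≤ p := Nat.le_mul_of_pos_right _ (by omega)
  have hp0 : (0 : ℤ) < p := by omega
  have he' : ∀ s : ℤ, 0 ≤ s → s < 2 * ρ + 1 → x0 (i + s) = x0 (i + p + s) := by
    intro s h0 h1
    obtain ⟨s, rfl⟩ := Int.eq_ofNat_of_zero_le h0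
    have := he ⟨s, by omega⟩
    rw [this]
    congr 1
    simp only [hi, hp]
    push_cast
    ring
  refine ⟨p, fun n => x0 (i + (n - i) % p), by omega, fun n c => ?_, fun q hq g hall => ?_⟩
  · have : n + p * c - i = (n - i) + p * c := by ring
    simp only [this, Int.add_mul_emod_self_left]
  · have win : ∀ n : ℤ, ∀ s : ℤ, 0 ≤ s → s < 2 * ρ + 1 →
        x0 (i + (n + s - i) % p) = x0 (i + (n - i) % p + s) := by
      intro n s h0 h1
      have a0 := Int.emod_nonneg (n - i) hp0.ne'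
      have a1 := Int.emod_lt_of_pos (n - i) hp0
      have a2 : (n + s - i) % p = ((n - i) % p + s) % p := by
        rw [Int.emod_add_emod]; congr 1; ring
      rw [a2]
      by_cases hlt : (n - i) % p + s < p
      · rw [Int.emod_eq_of_lt (by omega) hlt, add_assoc]
      · have a3 : ((n - i) % p + s) % p = (n - i) % p + s - p := by
          rw [← Int.sub_emod_right ((n - i) % p + s) p]
          exact Int.emod_eq_of_lt (by omega) (by omega)
        rw [a3, he' _ (by omega) (by omega)]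
        congr 1; ring
    refine hx q hq (τ ^ (i + ((κ g).toAdd - ρ - i) % p + ρ)) fun h => ?_
    rw [← hall h]
    have hb := hρ q hq h h.2
    have := win ((κ g).toAdd - ρ) (ρ + (κ h).toAdd) (by omega) (by omega)
    simp only [map_mul, map_zpow, hτ, toAdd_mul, toAdd_zpow, toAdd_ofAdd, smul_eq_mul, mul_one]
    rw [add_assoc (i + _), ← this]
    congr 3
    ring

end Pool.Agent.H49Z.Med
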